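import Mathlib
import Pool.Agent.K6.H54.ZG.Inc

/-!
# MP_56e040_nt: Zagier's conjecture in infinitely many weights implies it in all weights

Let `Z_n` be the `ℚ`-space spanned by the multiple zeta values of weight `n`, and `d_n` Zagier's
numbers. The known structure of the algebra `H` of motivic multiple zeta values (Goncharov,
Deligne-Goncharov, Brown) is used in the following form (`MotivicLift`): `H` is a graded domain, the
dimension of `H_n` is `d_n`, there is a prime element `f` of weight two (the motivic `ζ(2)`), and the period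
map is a ring homomorphism `per` from `H` to `ℝ` with `per(H_n) = Z_n` and `per(f) ≠ 0`. (`H` is the
tensor product of `ℚ[f]` with the shuffle algebra on letters of the weights `3, 5, 7, …`, a
polynomial algebra on the Lyndon words and `f`; `per f = ζ(2)`.)

**Theorem.** Suppose that `dim Z_m < d_m` for some `m`.
(1) `dim Z_n ≤ d_n - d_(n-m)` for all `n ≥ m`, so that `dim Z_n ≤ (1 - 2^(-m)) d_n` for all `n ≥ m + 2`.
(2) If `m` is the first such weight then `m ≥ 5`, and modulo `π²`:
`dim Z_(n+3) / π² Z_(n+1) ≤ d_n - d_(n-m)` for all `n ≥ m`.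
(3) If `dim(Z_0 + … + Z_m) < d_0 + … + d_m` then
`dim(Z_0 + … + Z_n) ≤ d_0 + … + d_n - (d_0 + … + d_(n-m))` for all `n ≥ m`.

So the conjecture holds in all weights or in finitely many weights only, and it is equivalent to
each of the following statements: `dim Z_n = d_n` for infinitely many `n`;
`limsup dim Z_n / d_n = 1`; there are infinitely many `n` for which `d_n` of the multiple zeta values
of weight `n + 3` are linearly independent modulo `π² Z_(n+1)`, and even
`limsup (dim Z_(n+3) - dim Z_(n+1)) / d_n = 1`. If it holds in the weight `n`, then it holds in all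
weights `k ≤ n`, `k ≠ n - 1`. The same dichotomy holds for the stronger conjecture that moreover the
sum of the spaces `Z_n` is direct.

**Proof.** A relation is an element `a ≠ 0` of the kernel of the period map in `H_m`, and `H_(n-m) a`
is contained in the kernel in `H_n`. For (2): the first relation is not divisible by `f`, so
`f H_(n-2) ∩ a H_(n-m) = f a H_(n-m-2)`, as `f` is prime, and `per` maps
`f H_(n-2) + a H_(n-m)` onto `π² Z_(n-2)`.
-/

set_option autoImplicit false

open Module

namespace Pool.Agent.Results.MP_56e040_nt.InfinitelyManyWeights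

/-- `trunc [s_1, ..., s_r] m` is the sum of `∏ n_i ^ (-s_i)` over `m > n_1 > ... > n_r ≥ 1` -/
noncomputable def trunc : List ℕ → ℕ → ℝ
  | [], _ => 1
  | s :: l, m => ∑ j ∈ Finset.Ico 1 m, trunc l j / (j : ℝ) ^ s

/-- the multiple zeta value `ζ(s_1, ..., s_r)`, the sum of `∏ n_i ^ (-s_i)` over
`n_1 > ... > n_r ≥ 1`; `ζ() = 1` -/
noncomputable def mzv : List ℕ → ℝ
  | [] => 1
  | s :: l => ∑' m : ℕ, trunc l (m + 1) / ((m + 1 : ℕ) : ℝ) ^ s

/-- admissible indices: the empty index and `(s_1, ..., s_r)` with `s_1 ≥ 2` and all `s_i ≥ 1` -/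
def Admissible : List ℕ → Prop
  | [] => True
  | s :: l => 2 ≤ s ∧ ∀ t ∈ l, 1 ≤ t

/-- the space `Z_n` spanned by the multiple zeta values of weight `n` -/
noncomputable def weightSpace (n : ℕ) : Submodule ℚ ℝ :=
  Submodule.span ℚ (mzv '' {p | Admissible p ∧ p.sum = n})

/-- the space `Z_0 + ... + Z_n` -/
noncomputable def weightSum (n : ℕ) : Submodule ℚ ℝ :=
  ⨆ i ∈ Finset.range (n + 1), weightSpace i

/-- Zagier's numbers `d_0 = 1`, `d_1 = 0`, `d_2 = 1`, `d_n = d_(n - 2) + d_(n - 3)` -/
def zagier : ℕ → ℕ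
  | 0 => 1
  | 1 => 0
  | 2 => 1
  | n + 3 => zagier (n + 1) + zagier n

/-- `d_0 + ... + d_n` -/
def zagierSum (n : ℕ) : ℕ := ∑ i ∈ Finset.range (n + 1), zagier i

/-- The known facts on the algebra `H` of the motivic multiple zeta values, its period map `per` and
the motivic `ζ(2)`. -/
def MotivicLift : Prop :=
  ∃ (H : Type) (_ : CommRing H) (_ : IsDomain H) (_ : Algebra ℚ H) (A : ℕ → Submodule ℚ H)
    (_ : GradedAlgebra A) (per : H →ₐ[ℚ] ℝ) (f : H),
    Prime f ∧ f ∈ A 2 ∧ per f ≠ 0 ∧
    ∀ n, FiniteDimensional ℚ (A n) ∧ finrank ℚ (A n) = zagier n ∧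
      (A n).map per.toLinearMap = weightSpace n

/-! ### the numbers -/

theorem zagier_pos : ∀ n : ℕ, n ≠ 1 → 0 < zagier n
  | 0 => fun _ => by simp [zagier]
  | 1 => fun h => absurd rfl h
  | 2 => fun _ => by simp [zagier]
  | 3 => fun _ => by simp [zagier]
  | n + 4 => fun _ => by
    have h : 0 < zagier (n + 1 + 1) := zagier_pos (n + 2) (by omega)
    rw [zagier]
    omega

theorem zagier_double : ∀ n : ℕ, 2 ≤ n → zagier (n + 1) ≤ 2 * zagier n
  | 0 => fun h => absurd h (by omega)
  | 1 => fun h => absurd h (by omega)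
  | 2 => fun _ => by simp [zagier]
  | 3 => fun _ => by simp [zagier]
  | 4 => fun _ => by simp [zagier]
  | n + 5 => fun _ => by
    have h1 := zagier_double (n + 3) (by omega)
    have h2 := zagier_double (n + 2) (by omega)
    have e1 : zagier (n + 5 + 1) = zagier (n + 4) + zagier (n + 3) := by
      rw [show n + 5 + 1 = (n + 3) + 3 by ring, zagier]
    have e2 : zagier (n + 5) = zagier (n + 3) + zagier (n + 2) := by
      rw [show n + 5 = (n + 2) + 3 by ring, zagier]
    have e3 : n + 3 + 1 = n + 4 := by ring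
    have e4 : n + 2 + 1 = n + 3 := by ring
    rw [e3] at h1
    rw [e4] at h2
    omega

theorem zagier_pow (k : ℕ) (hk : 2 ≤ k) (j : ℕ) : zagier (k + j) ≤ 2 ^ j * zagier k := by
  induction j with
  | zero => simp
  | succ j ih =>
    have h1 := zagier_double (k + j) (by omega)
    rw [← add_assoc]
    calc zagier (k + j + 1) ≤ 2 * zagier (k + j) := h1
      _ ≤ 2 * (2 ^ j * zagier k) := Nat.mul_le_mul_left _ ih
      _ = 2 ^ (j + 1) * zagier k := by ring

/-! ### the three inequalities -/

theorem ineq1 (hM : MotivicLift) {m : ℕ} (hm : finrank ℚ (weightSpace m) ≠ zagier m) {n : ℕ}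
    (hmn : m ≤ n) : finrank ℚ (weightSpace n) + zagier (n - m) ≤ zagier n := by
  obtain ⟨H, _, _, _, A, _, per, f, hp, hf, hf0, hA⟩ := hM
  have i1 := fun n => (hA n).1
  have i2 := i1 m
  obtain ⟨a, ham, ha, h0⟩ := Pool.Agent.K6.H54.ZG.exists_rel per (A m) (by
    rwa [(hA m).2.2, (hA m).2.1])
  have h1 := Pool.Agent.K6.H54.ZG.weight_le per i1 hmn ham ha h0
  rwa [(hA n).2.2, (hA n).2.1, (hA (n - m)).2.1] at h1

theorem ineq2 (hM : MotivicLift) {m : ℕ} (hm : finrank ℚ (weightSpace m) ≠ zagier m)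
    (hmin : ∀ j < m, finrank ℚ (weightSpace j) = zagier j) {n : ℕ} (hmn : m ≤ n) :
    finrank ℚ (weightSpace (n + 3)) + zagier (n - m) ≤
      finrank ℚ (weightSpace (n + 1)) + zagier n := by
  obtain ⟨H, _, _, _, A, _, per, f, hp, hf, hf0, hA⟩ := hM
  have i1 := fun n => (hA n).1
  have i2 := i1 m
  obtain ⟨a, ham, ha, h0⟩ := Pool.Agent.K6.H54.ZG.exists_rel per (A m) (by
    rwa [(hA m).2.2, (hA m).2.1])
  have h1 := Pool.Agent.K6.H54.ZG.not_dvd per i1 (by norm_num : 0 < 2) hf hf0 ham ha h0
    (fun j hj => by rw [(hA j).2.2, (hA j).2.1]; exact hmin j hj)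
  have h2 := Pool.Agent.K6.H54.ZG.incr per i1 (n := n + 3) hf hp (by omega) ham ha h0 h1
  rw [(hA _).2.2, (hA _).2.2, (hA _).2.1, (hA _).2.1, (hA _).2.1, (hA _).2.1] at h2
  have e1 : n + 3 - 2 = n + 1 := by omega
  have e2 : n + 3 - m = (n - m) + 3 := by omega
  have e3 : n - m + 3 - 2 = n - m + 1 := by omega
  rw [e1, e2, e3, zagier, zagier] at h2
  omega

theorem ineq3 (hM : MotivicLift) {m : ℕ} (hm : finrank ℚ (weightSum m) ≠ zagierSum m) {n : ℕ}
    (hmn : m ≤ n) : finrank ℚ (weightSum n) + zagierSum (n - m) ≤ zagierSum n := by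
  obtain ⟨H, _, _, _, A, _, per, f, hp, hf, hf0, hA⟩ := hM
  have i1 := fun n => (hA n).1
  have e1 : ∀ n, (Pool.Agent.K6.H54.ZG.upTo A n).map per.toLinearMap = weightSum n := by
    intro n
    rw [Pool.Agent.K6.H54.ZG.map_upTo, Pool.Agent.K6.H54.ZG.upTo, weightSum]
    simp only [(hA _).2.2]
  have e2 : ∀ n, finrank ℚ (Pool.Agent.K6.H54.ZG.upTo A n) = zagierSum n := by
    intro n
    rw [Pool.Agent.K6.H54.ZG.finrank_upTo i1, zagierSum]
    exact Finset.sum_congr rfl fun i _ => (hA i).2.1
  have h1 := Pool.Agent.K6.H54.ZG.upTo_le per i1 hmn (by rwa [e1, e2])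
  rwa [e1, e2, e2] at h1

/-! ### small weights -/

theorem fd (hM : MotivicLift) (n : ℕ) : FiniteDimensional ℚ (weightSpace n) ∧
    finrank ℚ (weightSpace n) ≤ zagier n := by
  obtain ⟨H, _, _, _, A, _, per, f, hp, hf, hf0, hA⟩ := hM
  have i1 := (hA n).1
  rw [← (hA n).2.2, ← (hA n).2.1]
  exact ⟨inferInstance, Submodule.finrank_map_le _ _⟩

theorem rank_of_ne (hM : MotivicLift) {n : ℕ} (hn : zagier n = 1) {x : ℝ} (hx : x ∈ weightSpace n)
    (h0 : x ≠ 0) : finrank ℚ (weightSpace n) = zagier n := by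
  obtain ⟨h1, h2⟩ := fd hM n
  have h3 : 0 < finrank ℚ (weightSpace n) := by
    have : Nontrivial (weightSpace n) := ⟨⟨⟨x, hx⟩, 0, fun h => h0 (congrArg Subtype.val h)⟩⟩
    exact finrank_pos
  omega

theorem zeta_pos (n : ℕ) (hn : 2 ≤ n) : mzv [n] ∈ weightSpace n ∧ 0 < mzv [n] := by
  refine ⟨Submodule.subset_span ⟨[n], ⟨⟨hn, by simp⟩, by simp⟩, rfl⟩, ?_⟩
  rw [mzv]
  simp only [trunc]
  have h1 : Summable fun m : ℕ => 1 / ((m + 1 : ℕ) : ℝ) ^ n := by
    have h2 := (Real.summable_one_div_nat_pow (p := n)).2 (by omega)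
    exact (summable_nat_add_iff 1).2 h2
  exact h1.tsum_pos (fun i => by positivity) 0 (by positivity)

theorem small (hM : MotivicLift) (n : ℕ) (hn : n < 5) : finrank ℚ (weightSpace n) = zagier n := by
  have hcase : n = 0 ∨ n = 1 ∨ (2 ≤ n ∧ zagier n = 1) := by
    interval_cases n <;> simp [zagier]
  rcases hcase with rfl | rfl | ⟨h2, h3⟩
  · refine rank_of_ne hM (by simp [zagier]) (x := mzv []) ?_ ?_
    · exact Submodule.subset_span ⟨[], ⟨trivial, rfl⟩, rfl⟩
    · rw [mzv]
      exact one_ne_zero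
  · have h4 := (fd hM 1).2
    have h5 : zagier 1 = 0 := by simp [zagier]
    omega
  · exact rank_of_ne hM h3 (zeta_pos n h2).1 (zeta_pos n h2).2.ne'

theorem first (h : ¬ ∀ n, finrank ℚ (weightSpace n) = zagier n) :
    ∃ m, finrank ℚ (weightSpace m) ≠ zagier m ∧ ∀ j < m, finrank ℚ (weightSpace j) = zagier j := by
  classical
  push Not at h
  exact ⟨Nat.find h, Nat.find_spec h, fun j hj => not_not.1 (Nat.find_min h hj)⟩

theorem five_le (hM : MotivicLift) {m : ℕ} (hm : finrank ℚ (weightSpace m) ≠ zagier m) : 5 ≤ m := by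
  by_contra hlt
  exact hm (small hM m (by omega))

/-- the proportion of `zagier (n - m)` in `zagier n` -/
theorem prop_le {m n : ℕ} (h : m + 2 ≤ n) : (zagier n : ℝ) ≤ 2 ^ m * zagier (n - m) := by
  have h1 := zagier_pow (n - m) (by omega) m
  rw [Nat.sub_add_cancel (by omega)] at h1
  exact_mod_cast h1

theorem zagierSum_prop {m n : ℕ} (h : m + 2 ≤ n) :
    (zagierSum n : ℝ) ≤ (2 ^ m + zagierSum (m + 1)) * zagierSum (n - m) := by
  have h0 : (1 : ℝ) ≤ zagierSum (n - m) := by
    have : 1 ≤ zagierSum (n - m) := by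
      rw [zagierSum]
      exact Finset.single_le_sum (f := zagier) (fun i _ => Nat.zero_le _)
        (Finset.mem_range.2 (Nat.succ_pos (n - m)))
    exact_mod_cast this
  have h1 : (zagierSum n : ℝ) ≤ zagierSum (m + 1) + 2 ^ m * zagierSum (n - m) := by
    have h2 : zagierSum n = zagierSum (m + 1) + ∑ i ∈ Finset.Ico (m + 2) (n + 1), zagier i := by
      rw [zagierSum, zagierSum, Finset.sum_range_add_sum_Ico _ (by omega)]
    have h3 : ∑ i ∈ Finset.Ico (m + 2) (n + 1), zagier i ≤ 2 ^ m * zagierSum (n - m) := by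
      rw [zagierSum, Finset.mul_sum, Finset.sum_Ico_eq_sum_range]
      have h4 : n + 1 - (m + 2) ≤ n - m + 1 - 2 := by omega
      calc ∑ k ∈ Finset.range (n + 1 - (m + 2)), zagier (m + 2 + k)
          ≤ ∑ k ∈ Finset.range (n + 1 - (m + 2)), 2 ^ m * zagier (k + 2) := by
            refine Finset.sum_le_sum fun k _ => ?_
            have h5 := zagier_pow (k + 2) (by omega) m
            rwa [show k + 2 + m = m + 2 + k by ring] at h5
        _ = ∑ k ∈ Finset.Ico 2 (n - m + 1), 2 ^ m * zagier k := by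
            rw [Finset.sum_Ico_eq_sum_range]
            have h6 : n - m + 1 - 2 = n + 1 - (m + 2) := by omega
            rw [h6]
            exact Finset.sum_congr rfl fun k _ => by rw [add_comm k 2]
        _ ≤ ∑ i ∈ Finset.range (n - m + 1), 2 ^ m * zagier i := by
            refine Finset.sum_le_sum_of_subset fun i hi => ?_
            exact Finset.mem_range.2 (Finset.mem_Ico.1 hi).2
    rw [h2]
    push_cast
    have h3' : ((∑ i ∈ Finset.Ico (m + 2) (n + 1), zagier i : ℕ) : ℝ) ≤
        ((2 ^ m * zagierSum (n - m) : ℕ) : ℝ) := by exact_mod_cast h3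
    push_cast at h3'
    linarith
  have h2 : (0 : ℝ) ≤ zagierSum (m + 1) := Nat.cast_nonneg _
  nlinarith

theorem contra {a b d c : ℝ} (hc : 0 < c) (hb : 0 < b) (h1 : d ≤ c * b)
    (h2 : a + b ≤ d) : a < (1 - 1 / (2 * c)) * d := by
  have h3 : 1 / (2 * c) * d ≤ b / 2 := by
    calc 1 / (2 * c) * d ≤ 1 / (2 * c) * (c * b) := by gcongr
      _ = b / 2 := by field_simp
  nlinarith

/-- **Theorem.** See the introduction of this file. -/
theorem result (hM : MotivicLift) :
    (∀ m, finrank ℚ (weightSpace m) ≠ zagier m → ∀ n, m ≤ n →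
      finrank ℚ (weightSpace n) + zagier (n - m) ≤ zagier n) ∧
    (∀ m, finrank ℚ (weightSpace m) ≠ zagier m →
      (∀ j < m, finrank ℚ (weightSpace j) = zagier j) → 5 ≤ m ∧ ∀ n, m ≤ n →
        finrank ℚ (weightSpace (n + 3)) + zagier (n - m) ≤
          finrank ℚ (weightSpace (n + 1)) + zagier n) ∧
    (∀ m, finrank ℚ (weightSum m) ≠ zagierSum m → ∀ n, m ≤ n →
      finrank ℚ (weightSum n) + zagierSum (n - m) ≤ zagierSum n) ∧
    (∀ n, finrank ℚ (weightSpace n) = zagier n → ∀ k ≤ n, k + 1 ≠ n →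
      finrank ℚ (weightSpace k) = zagier k) ∧
    [ ∀ n, finrank ℚ (weightSpace n) = zagier n,
      ∀ N, ∃ n ≥ N, finrank ℚ (weightSpace n) = zagier n,
      ∀ ε : ℝ, 0 < ε → ∀ N, ∃ n ≥ N, (1 - ε) * zagier n ≤ finrank ℚ (weightSpace n),
      ∀ N, ∃ n ≥ N, finrank ℚ (weightSpace (n + 3)) = finrank ℚ (weightSpace (n + 1)) + zagier n,
      ∀ ε : ℝ, 0 < ε → ∀ N, ∃ n ≥ N,
        (finrank ℚ (weightSpace (n + 1)) : ℝ) + (1 - ε) * zagier n ≤
          finrank ℚ (weightSpace (n + 3))].TFAE ∧
    [ ∀ n, finrank ℚ (weightSpace n) = zagier n ∧ Disjoint (weightSum n) (weightSpace (n + 1)),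
      ∀ n, finrank ℚ (weightSum n) = zagierSum n,
      ∀ N, ∃ n ≥ N, finrank ℚ (weightSum n) = zagierSum n,
      ∀ ε : ℝ, 0 < ε → ∀ N, ∃ n ≥ N, (1 - ε) * zagierSum n ≤ finrank ℚ (weightSum n)].TFAE := by
  have hpow : ∀ m : ℕ, (0 : ℝ) < 2 ^ m := fun m => by positivity
  have hone : ∀ (ε : ℝ) (k : ℕ), 0 < ε → (1 - ε) * (k : ℝ) ≤ k := fun ε k hε => by
    have : (0 : ℝ) ≤ k := Nat.cast_nonneg _
    nlinarith
  refine ⟨fun m hm n hmn => ineq1 hM hm hmn,
    fun m hm hmin => ⟨five_le hM hm, fun n hmn => ineq2 hM hm hmin hmn⟩,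
    fun m hm n hmn => ineq3 hM hm hmn, fun n hn k hkn hk => ?_, ?_, ?_⟩
  · by_contra hcon
    have h1 := ineq1 hM hcon hkn
    have h2 := zagier_pos (n - k) (by omega)
    omega
  · tfae_have 1 → 2 := fun h N => ⟨N, le_rfl, h N⟩
    tfae_have 2 → 3 := fun h ε hε N => by
      obtain ⟨n, hn, h1⟩ := h N
      exact ⟨n, hn, by rw [h1]; exact hone ε _ hε⟩
    tfae_have 3 → 1 := fun h => by
      by_contra hcon
      obtain ⟨m, hm, _⟩ := first hcon
      obtain ⟨n, hn, h1⟩ := h (1 / (2 * 2 ^ m)) (by positivity) (m + 2)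
      have h2 := ineq1 hM hm (show m ≤ n by omega)
      have h3 : (finrank ℚ (weightSpace n) : ℝ) + zagier (n - m) ≤ zagier n := by exact_mod_cast h2
      have h4 : (0 : ℝ) < zagier (n - m) := by exact_mod_cast zagier_pos (n - m) (by omega)
      have h5 := contra (hpow m) h4 (prop_le hn) h3
      linarith
    tfae_have 1 → 4 := fun h N => ⟨N, le_rfl, by rw [h, h, zagier]⟩
    tfae_have 4 → 5 := fun h ε hε N => by
      obtain ⟨n, hn, h1⟩ := h N
      refine ⟨n, hn, ?_⟩
      rw [h1]
      push_cast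
      have := hone ε (zagier n) hε
      linarith
    tfae_have 5 → 1 := fun h => by
      by_contra hcon
      obtain ⟨m, hm, hmin⟩ := first hcon
      obtain ⟨n, hn, h1⟩ := h (1 / (2 * 2 ^ m)) (by positivity) (m + 2)
      have h2 := ineq2 hM hm hmin (show m ≤ n by omega)
      have h3 : ((finrank ℚ (weightSpace (n + 3)) : ℝ) - finrank ℚ (weightSpace (n + 1))) +
          zagier (n - m) ≤ zagier n := by
        have : (finrank ℚ (weightSpace (n + 3)) : ℝ) + zagier (n - m) ≤
          finrank ℚ (weightSpace (n + 1)) + zagier n := by exact_mod_cast h2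
        linarith
      have h4 : (0 : ℝ) < zagier (n - m) := by exact_mod_cast zagier_pos (n - m) (by omega)
      have h5 := contra (hpow m) h4 (prop_le hn) h3
      linarith
    tfae_finish
  · have hsucc : ∀ n, weightSum (n + 1) = weightSum n ⊔ weightSpace (n + 1) :=
      fun n => Pool.Agent.K6.H54.ZG.upTo_succ weightSpace n
    have hzs : ∀ n, zagierSum (n + 1) = zagierSum n + zagier (n + 1) := fun n => by
      rw [zagierSum, zagierSum, Finset.sum_range_succ]
    have hz0 : weightSum 0 = weightSpace 0 := Pool.Agent.K6.H54.ZG.upTo_zero weightSpace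
    have hfd : ∀ n, FiniteDimensional ℚ (weightSum n) := by
      intro n
      induction n with
      | zero =>
        rw [hz0]
        exact (fd hM 0).1
      | succ n ih =>
        rw [hsucc]
        have := (fd hM (n + 1)).1
        infer_instance
    have hdim : ∀ n, finrank ℚ (weightSum (n + 1)) +
        finrank ℚ ↑(weightSum n ⊓ weightSpace (n + 1)) =
          finrank ℚ (weightSum n) + finrank ℚ (weightSpace (n + 1)) := fun n => by
      have i1 := hfd n
      have i2 := (fd hM (n + 1)).1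
      rw [hsucc]
      exact Submodule.finrank_sup_add_finrank_inf_eq _ _
    have hle : ∀ n, finrank ℚ (weightSum n) ≤ zagierSum n := by
      intro n
      induction n with
      | zero =>
        have h1 := (fd hM 0).2
        rw [hz0, zagierSum, zero_add, Finset.sum_range_one]
        exact h1
      | succ n ih =>
        have h1 := (fd hM (n + 1)).2
        have h2 := hdim n
        have h3 := hzs n
        omega
    tfae_have 1 → 2 := fun h n => by
      induction n with
      | zero =>
        have h1 := (h 0).1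
        rw [hz0, zagierSum, zero_add, Finset.sum_range_one]
        exact h1
      | succ n ih =>
        have h1 := (h (n + 1)).1
        have h2 := hdim n
        rw [(h n).2.eq_bot, finrank_bot] at h2
        have h3 := hzs n
        omega
    tfae_have 2 → 1 := fun h n => by
      have hsmall : ∀ k, finrank ℚ (weightSpace k) = zagier k := by
        intro k
        cases k with
        | zero =>
          have h1 := h 0
          rw [hz0, zagierSum, zero_add, Finset.sum_range_one] at h1
          exact h1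
        | succ k =>
          have h1 := h k
          have h2 := h (k + 1)
          have h3 := hdim k
          have h4 := hzs k
          have h5 := (fd hM (k + 1)).2
          omega
      refine ⟨hsmall n, ?_⟩
      have h1 := h n
      have h2 := h (n + 1)
      have h3 := hdim n
      have h4 := hzs n
      have h5 := hsmall (n + 1)
      have h6 : finrank ℚ ↑(weightSum n ⊓ weightSpace (n + 1)) = 0 := by omega
      have i1 := hfd n
      exact disjoint_iff.2 (Submodule.finrank_eq_zero.1 h6)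
    tfae_have 2 → 3 := fun h N => ⟨N, le_rfl, h N⟩
    tfae_have 3 → 4 := fun h ε hε N => by
      obtain ⟨n, hn, h1⟩ := h N
      exact ⟨n, hn, by rw [h1]; exact hone ε _ hε⟩
    tfae_have 4 → 2 := fun h m => by
      by_contra hm
      obtain ⟨n, hn, h1⟩ := h (1 / (2 * (2 ^ m + zagierSum (m + 1)))) (by positivity) (m + 2)
      have h2 := ineq3 hM hm (show m ≤ n by omega)
      have h3 : (finrank ℚ (weightSum n) : ℝ) + zagierSum (n - m) ≤ zagierSum n := by
        exact_mod_cast h2
      have h4 : (0 : ℝ) < zagierSum (n - m) := by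
        have : 1 ≤ zagierSum (n - m) := by
          rw [zagierSum]
          exact Finset.single_le_sum (f := zagier) (fun i _ => Nat.zero_le _)
            (Finset.mem_range.2 (Nat.succ_pos (n - m)))
        exact_mod_cast this
      have h5 := contra (by positivity) h4 (zagierSum_prop hn) h3
      linarith
    tfae_finish

end Pool.Agent.Results.MP_56e040_nt.InfinitelyManyWeights
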