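import Mathlib
import Pool.Agent.K6.H8.MZ.Main

/-!
# MP_56e040_nt: Zagier's dimensions and the relations between multiple zeta values with several large arguments

Let `a_n` be the number of admissible indices of weight `n` (`a_0 = 1`, `a_1 = 0`, `a_n = 2 ^ (n - 2)`) and `Z_n` the
`ℚ`-space spanned by the multiple zeta values of weight `n`. Let `L_1, ..., L_m`, `m ≥ 1`, be nonzero linear forms in `k`
variables `s_1, ..., s_k` whose coefficients are natural numbers, for instance `m = k` and `L_i = s_i`, or `k = 1` and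
`L_1 = ... = L_m = s`. Fix `W` and consider the multiple zeta values of weight `L_1(s) + ... + L_m(s) + W` which have
arguments `t_1 ≥ L_1(s)`, ..., `t_m ≥ L_m(s)` in this order, at any places; the other arguments, before, between and after
them, are small. For almost all `s` means: for all but `K N ^ (k - 1)` of the `k`-tuples `s ∈ [N, κ N] ^ k`, for all large
`N`; here `K` depends on the forms, on `W` and on `κ`, but not on the constant `C`.

Theorem (unconditional).
(1) For almost all `s` the relations with integer coefficients of absolute value at most `C ^ (s_1 + ... + s_k)` between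
these multiple zeta values span a space of dimension `∑_{n ≤ W} 2 ^ (W - n) binom(m + W - n - 1, W - n) (a_n - dim Z_n)`.
(2) So for every `W_0`, and every choice of the forms, Zagier's conjecture `dim Z_n = d_n` holds for all `n ≤ W_0` if and
only if for all `W ≤ W_0` and almost all `s` the dimension of this space is
`∑_{n ≤ W} 2 ^ (W - n) binom(m + W - n - 1, W - n) (a_n - d_n)`.
(3) For `W ≤ 2` there is no such relation, for `W = 3` they span a space of dimension one, and for `W = 4` a space of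
dimension `2 m + 3`, for almost all `s`.

The starting result RelationsOneLargeArgument is the case `k = m = 1` of (1) and of (2) for all `n` together. With several
large arguments the relations do not come from one place: for each way to distribute the weight `W - n` on the `m` large
arguments and the small arguments behind them there are `a_n - dim Z_n` relations, one for every relation of weight `n`
between the constant values, and the theorem says that almost always these are all.

Proof. A word `p (b_1 + L_1) r_1 ... (b_m + L_m) r_m` with a small word `p` is expanded in stuffle products `p' * v'` of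
initial parts `p'` of `p` and words `v'` of the same kind which begin with a large letter; it is important that here the
large letters keep their order and are not added to each other (`Pool.Agent.K6.H8.MZ.Lin`). By the elimination theorem of
the starting library (`Pool.Agent.X90.DD.Lin`, which rests on the subspace theorem) almost always a relation splits into
relations `∑ c_p' ζ(p') = 0`, one for each `v'`. The expansion is injective, because the truncated sums at lists of complex
numbers are linearly independent functions with the stuffle product; and the number of the words `v'` with small part of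
weight `w` is `2 ^ w binom(m + w - 1, w)`. The order of the arguments is that of the problem: the first argument belongs to
the largest summation variable.
-/

set_option autoImplicit false

namespace Pool.Agent.Results.MP_56e040_nt.SeveralLargeArguments

/-- `trunc [s_1, ..., s_r] m` is the sum of `∏ n_i ^ (-s_i)` over `m > n_1 > ... > n_r ≥ 1` -/
noncomputable def trunc : List ℕ → ℕ → ℝ
  | [], _ => 1
  | s :: l, m => ∑ j ∈ Finset.Ico 1 m, trunc l j / (j : ℝ) ^ s

/-- the multiple zeta value `ζ(s_1, ..., s_r)`, the sum of `∏ n_i ^ (-s_i)` over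
`n_1 > ... > n_r ≥ 1`; `ζ() = 1` -/
noncomputable def mzv : List ℕ → ℝ
  | [] => 1
  | s :: l => ∑' m : ℕ, trunc l (m + 1) / ((m + 1 : ℕ) : ℝ) ^ s

/-- admissible indices: the empty index and `(s_1, ..., s_r)` with `s_1 ≥ 2` and all `s_i ≥ 1` -/
def Admissible : List ℕ → Prop
  | [] => True
  | s :: l => 2 ≤ s ∧ ∀ t ∈ l, 1 ≤ t

/-- the space `Z_n` spanned by the multiple zeta values of weight `n` -/
noncomputable def weightSpace (n : ℕ) : Submodule ℚ ℝ :=
  Submodule.span ℚ (mzv '' {p | Admissible p ∧ p.sum = n})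

/-- the number of admissible indices of weight `n` -/
def numIndices : ℕ → ℕ
  | 0 => 1
  | 1 => 0
  | n + 2 => 2 ^ n

/-- Zagier's numbers `d_0 = 1`, `d_1 = 0`, `d_2 = 1`, `d_n = d_(n - 2) + d_(n - 3)` -/
def zagier : ℕ → ℕ
  | 0 => 1
  | 1 => 0
  | 2 => 1
  | n + 3 => zagier (n + 1) + zagier n

/-- the number `2 ^ w binom(m + w - 1, w)` -/
def mult (m w : ℕ) : ℕ := 2 ^ w * (m + w - 1).choose w

/-- the index `w` has arguments `t_1 ≥ A_1`, `t_2 ≥ A_2`, ... in this order -/
def Has (A w : List ℕ) : Prop := ∃ t : List ℕ, t.Sublist w ∧ List.Forall₂ (fun a b => a ≤ b) A t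

/-- the values at `s` of the linear forms with the coefficients `c` -/
def forms {k m : ℕ} (c : Fin m → Fin k → ℕ) (s : Fin k → ℕ) : Fin m → ℕ :=
  fun i => ∑ j, c i j * s j

/-- the `ℚ`-space spanned by the relations `∑ c_w ζ(w) = 0`, with integers `c_w` of absolute value at most `B`, between
the multiple zeta values of weight `L_1 + ... + L_m + W` with arguments `t_1 ≥ L_1`, ..., `t_m ≥ L_m` in this order -/
noncomputable def relationSpace {m : ℕ} (W : ℕ) (L : Fin m → ℕ) (B : ℝ) :
    Submodule ℚ (List ℕ →₀ ℚ) :=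
  Submodule.span ℚ {c | (∀ w ∈ c.support, Admissible w ∧ w.sum = ∑ i, L i + W ∧ Has (List.ofFn L) w) ∧
    (∀ w, ∃ z : ℤ, c w = z ∧ |(z : ℝ)| ≤ B) ∧ c.sum (fun w x => (x : ℝ) * mzv w) = 0}

/-- for all `κ` there is `K` such that for all `C > 1` and all sufficiently large `N`, `P C s` holds
for all but at most `K N ^ (k - 1)` of the `s ∈ [N, κ N] ^ k` -/
def AlmostAll {k : ℕ} (P : ℝ → (Fin k → ℕ) → Prop) : Prop :=
  ∀ κ : ℕ, ∃ K : ℕ, ∀ C : ℝ, 1 < C → ∃ N0 : ℕ, ∀ N : ℕ, N0 ≤ N →
    {s : Fin k → ℕ | (∀ j, N ≤ s j ∧ s j ≤ κ * N) ∧ ¬ P C s}.ncard ≤ K * N ^ (k - 1)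

open Finset
open Pool.Agent.X90.DB (Ad)
open Pool.Agent.X90.DD (WS)
open Pool.Agent.X90.DE (na)
open Pool.Agent.K6.H8.MZ (relS Fam Cn cV lf)

theorem trunc_eq : ∀ l m, trunc l m = Pool.Agent.Y760.ZG.hr l m := by
  intro l
  induction l with
  | nil => intro m; rw [trunc, Pool.Agent.Y760.ZG.hr]
  | cons s l ih =>
    intro m
    rw [trunc, Pool.Agent.Y760.ZG.hr]
    exact Finset.sum_congr rfl fun j _ => by rw [ih]

theorem mzv_eq : ∀ l, mzv l = Pool.Agent.Y760.ZG.mz l := by
  intro l
  cases l with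
  | nil => rw [mzv, Pool.Agent.Y760.ZG.mz]
  | cons s l =>
    rw [mzv, Pool.Agent.Y760.ZG.mz]
    exact tsum_congr fun k => by rw [trunc_eq]

theorem mzv_fun : mzv = Pool.Agent.Y760.ZG.mz := funext mzv_eq

theorem adm_iff : ∀ u, Admissible u ↔ (u = [] ∨ Ad u) := by
  intro u
  cases u with
  | nil => exact ⟨fun _ => Or.inl rfl, fun _ => trivial⟩
  | cons a l => exact ⟨fun h => Or.inr h, fun h => h.resolve_left (List.cons_ne_nil _ _)⟩

theorem num_eq : ∀ n, numIndices n = na n
  | 0 => rfl
  | 1 => rfl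
  | _ + 2 => rfl

theorem weightSpace_eq (n : ℕ) : weightSpace n = WS n := by
  rw [weightSpace, WS, mzv_fun]
  simp only [adm_iff]

theorem relationSpace_eq {m : ℕ} (W : ℕ) (L : Fin m → ℕ) (B : ℝ) :
    relationSpace W L B = relS W L B := by
  rw [relationSpace, relS, mzv_fun]
  simp only [adm_iff, Fam]
  rfl

theorem box_finite {k : ℕ} (N M : ℕ) (Q : (Fin k → ℕ) → Prop) :
    {s : Fin k → ℕ | (∀ j, N ≤ s j ∧ s j ≤ M) ∧ Q s}.Finite := by
  refine (Fintype.piFinset fun _ : Fin k => Finset.Icc N M).finite_toSet.subset ?_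
  rintro s ⟨hs, -⟩
  rw [Finset.mem_coe, Fintype.mem_piFinset]
  exact fun j => Finset.mem_Icc.2 (hs j)

theorem almost_of {k : ℕ} {P : ℝ → (Fin k → ℕ) → Prop} (h : ∀ κ : ℕ, ∃ K : ℕ, ∀ C : ℝ, 1 < C →
    ∃ N0 : ℕ, ∀ N : ℕ, N0 ≤ N → ∀ B : Finset (Fin k → ℕ),
      (∀ s ∈ B, (∀ j, N ≤ s j ∧ s j ≤ κ * N) ∧ ¬ P C s) → B.card ≤ K * N ^ (k - 1)) :
    AlmostAll P := by
  intro κ
  obtain ⟨K, hK⟩ := h κ
  refine ⟨K, fun C hC => ?_⟩
  obtain ⟨N0, hN0⟩ := hK C hC
  refine ⟨N0, fun N hN => ?_⟩
  have hfin := box_finite N (κ * N) fun s => ¬ P C s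
  rw [Set.ncard_eq_toFinset_card _ hfin]
  refine hN0 N hN hfin.toFinset fun s hs => ?_
  rw [Set.Finite.mem_toFinset] at hs
  exact hs

theorem AlmostAll.mono {k : ℕ} {P Q : ℝ → (Fin k → ℕ) → Prop} (h : AlmostAll P)
    (hPQ : ∀ C s, P C s → Q C s) : AlmostAll Q := by
  intro κ
  obtain ⟨K, hK⟩ := h κ
  refine ⟨K, fun C hC => ?_⟩
  obtain ⟨N0, hN0⟩ := hK C hC
  refine ⟨N0, fun N hN => (Set.ncard_le_ncard ?_ (box_finite _ _ _)).trans (hN0 N hN)⟩
  rintro s ⟨hs, hs'⟩
  exact ⟨hs, fun hP => hs' (hPQ C s hP)⟩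

theorem AlmostAll.and {k : ℕ} {P Q : ℝ → (Fin k → ℕ) → Prop} (h : AlmostAll P)
    (h' : AlmostAll Q) : AlmostAll fun C s => P C s ∧ Q C s := by
  intro κ
  obtain ⟨K, hK⟩ := h κ
  obtain ⟨K', hK'⟩ := h' κ
  refine ⟨K + K', fun C hC => ?_⟩
  obtain ⟨N0, hN0⟩ := hK C hC
  obtain ⟨N0', hN0'⟩ := hK' C hC
  refine ⟨N0 + N0', fun N hN => ?_⟩
  have h3 : {s : Fin k → ℕ | (∀ j, N ≤ s j ∧ s j ≤ κ * N) ∧ ¬ (P C s ∧ Q C s)} ⊆
      {s : Fin k → ℕ | (∀ j, N ≤ s j ∧ s j ≤ κ * N) ∧ ¬ P C s} ∪
        {s : Fin k → ℕ | (∀ j, N ≤ s j ∧ s j ≤ κ * N) ∧ ¬ Q C s} := by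
    rintro s ⟨hs, hs'⟩
    by_cases h : P C s
    · exact Or.inr ⟨hs, fun hQ => hs' ⟨h, hQ⟩⟩
    · exact Or.inl ⟨hs, h⟩
  refine (Set.ncard_le_ncard h3 ((box_finite _ _ _).union (box_finite _ _ _))).trans
    ((Set.ncard_union_le _ _).trans ?_)
  have h1 := hN0 N (by omega)
  have h2 := hN0' N (by omega)
  rw [add_mul]
  exact add_le_add h1 h2

/-- almost all is at least one -/
theorem AlmostAll.exists {k : ℕ} (hk : 1 ≤ k) {P : ℝ → (Fin k → ℕ) → Prop} (h : AlmostAll P) :
    ∃ s, P 2 s := by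
  obtain ⟨K, hK⟩ := h 2
  obtain ⟨N0, hN0⟩ := hK 2 one_lt_two
  by_contra hcon
  push Not at hcon
  set N : ℕ := N0 + K + 1 with hN
  have h1 := hN0 N (by omega)
  have h2 : {s : Fin k → ℕ | (∀ j, N ≤ s j ∧ s j ≤ 2 * N) ∧ ¬ P 2 s} =
      ((Fintype.piFinset fun _ : Fin k => Finset.Icc N (2 * N) : Finset (Fin k → ℕ)) :
        Set (Fin k → ℕ)) := by
    ext s
    rw [Finset.mem_coe, Fintype.mem_piFinset]
    constructor
    · rintro ⟨h, -⟩ j
      exact Finset.mem_Icc.2 (h j)
    · exact fun h => ⟨fun j => Finset.mem_Icc.1 (h j), hcon s⟩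
  rw [h2, Set.ncard_coe_finset, Fintype.card_piFinset] at h1
  simp only [Nat.card_Icc] at h1
  rw [prod_const, card_univ, Fintype.card_fin] at h1
  have h3 : 2 * N + 1 - N = N + 1 := by omega
  rw [h3] at h1
  obtain ⟨k', rfl⟩ : ∃ k', k = k' + 1 := ⟨k - 1, by omega⟩
  rw [Nat.add_sub_cancel] at h1
  have h4 : (K + 1) * N ^ k' ≤ (N + 1) ^ (k' + 1) := by
    rw [pow_succ, mul_comm]
    exact Nat.mul_le_mul (Nat.pow_le_pow_left (by omega) _) (by omega)
  have h5 : 0 < N ^ k' := Nat.pow_pos (by omega)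
  nlinarith

theorem finrank_weightSpace (n : ℕ) :
    Module.finrank ℚ (weightSpace n) = Module.finrank ℚ (WS n) := by
  rw [weightSpace_eq]

theorem pos_of_forms {k m : ℕ} (hm : 1 ≤ m) {c : Fin m → Fin k → ℕ} (hc : ∀ i, c i ≠ 0) :
    1 ≤ k := by
  by_contra hk
  have h0 : k = 0 := by omega
  subst h0
  exact hc ⟨0, hm⟩ (funext fun j => j.elim0)

/-- (1) -/
theorem dims {k m : ℕ} (hm : 1 ≤ m) (c : Fin m → Fin k → ℕ) (hc : ∀ i, c i ≠ 0) (W : ℕ) :
    AlmostAll fun C (s : Fin k → ℕ) =>
      Module.finrank ℚ (relationSpace W (forms c s) (C ^ (∑ j, s j))) +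
        ∑ n ∈ range (W + 1), mult m (W - n) * Module.finrank ℚ (weightSpace n) =
          ∑ n ∈ range (W + 1), mult m (W - n) * numIndices n := by
  refine almost_of fun κ => ?_
  obtain ⟨K, hK⟩ := Pool.Agent.K6.H8.MZ.main k m (pos_of_forms hm hc) c hc W κ
  refine ⟨K, fun C hC => ?_⟩
  obtain ⟨N0, hN0⟩ := hK C hC
  refine ⟨N0, fun N hN B hB => hN0 N hN B fun s hs => ⟨(hB s hs).1, fun h => (hB s hs).2 ?_⟩⟩
  rw [relationSpace_eq]
  simp only [num_eq, finrank_weightSpace]
  exact h

/-- the weighted sums determine the numbers -/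
theorem eq_of_sums (m W0 : ℕ) (x y : ℕ → ℕ) (h : ∀ W ≤ W0,
    ∑ n ∈ range (W + 1), mult m (W - n) * x n = ∑ n ∈ range (W + 1), mult m (W - n) * y n) :
    ∀ n ≤ W0, x n = y n := by
  intro n
  induction n using Nat.strong_induction_on with
  | _ n ih =>
    intro hn
    have h1 := h n hn
    rw [sum_range_succ, sum_range_succ, sum_congr rfl fun i hi => by
      rw [ih i (mem_range.1 hi) (by have := mem_range.1 hi; omega)]] at h1
    have h2 : mult m (n - n) = 1 := by rw [Nat.sub_self, mult]; simp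
    rw [h2, one_mul, one_mul] at h1
    exact Nat.add_left_cancel h1

theorem rank_one {V : Submodule ℚ ℝ} {v : ℝ} (hv : v ∈ V) (hv0 : v ≠ 0)
    (h : ∀ x ∈ V, ∃ q : ℚ, x = q * v) : Module.finrank ℚ V = 1 := by
  have h1 : V = Submodule.span ℚ {v} := by
    refine le_antisymm (fun x hx => ?_) ?_
    · obtain ⟨q, rfl⟩ := h x hx
      exact Submodule.mem_span_singleton.2 ⟨q, by rw [Rat.smul_def]⟩
    · rw [Submodule.span_le, Set.singleton_subset_iff]
      exact hv
  rw [h1]
  exact finrank_span_singleton hv0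

theorem rank_zero' : Module.finrank ℚ (weightSpace 0) = 1 := by
  rw [weightSpace_eq]
  refine rank_one (v := 1) (Submodule.subset_span ⟨[], ⟨Or.inl rfl, rfl⟩, ?_⟩) one_ne_zero
    fun x hx => ?_
  · rw [Pool.Agent.Y760.ZG.mz]
  · obtain ⟨q, rfl⟩ := Pool.Agent.X90.DD.WS_zero hx
    exact ⟨q, by rw [mul_one]⟩

theorem rank_one' : Module.finrank ℚ (weightSpace 1) = 0 := by
  rw [weightSpace_eq]
  have h1 : WS 1 = ⊥ := by
    rw [Submodule.eq_bot_iff]
    exact fun x hx => Pool.Agent.X90.DD.WS_one hx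
  rw [h1]
  exact finrank_bot ℚ ℝ

theorem rank_two' : Module.finrank ℚ (weightSpace 2) = 1 := by
  rw [weightSpace_eq]
  have hA : Ad [2] := ⟨le_rfl, by simp⟩
  exact rank_one (Submodule.subset_span ⟨[2], ⟨Or.inr hA, rfl⟩, rfl⟩)
    (Pool.Agent.X90.DD.mz_ne (Or.inr hA)) fun x hx => Pool.Agent.X90.DD.WS_two hx

theorem rank_three' : Module.finrank ℚ (weightSpace 3) = 1 := by
  rw [weightSpace_eq]
  have hA : Ad [3] := ⟨by norm_num, by simp⟩
  exact rank_one (Submodule.subset_span ⟨[3], ⟨Or.inr hA, rfl⟩, rfl⟩)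
    (Pool.Agent.X90.DD.mz_ne (Or.inr hA)) fun x hx => Pool.Agent.X90.DD.WS_three hx

theorem rank_four' : Module.finrank ℚ (weightSpace 4) = 1 := by
  rw [weightSpace_eq]
  have hA : Ad [4] := ⟨by norm_num, by simp⟩
  refine rank_one (Submodule.subset_span ⟨[4], ⟨Or.inr hA, rfl⟩, rfl⟩)
    (Pool.Agent.X90.DD.mz_ne (Or.inr hA)) fun x hx => ?_
  have h1 : WS 4 ≤ Submodule.span ℚ {Pool.Agent.Y760.ZG.mz [4]} := by
    rw [WS, Submodule.span_le]
    rintro _ ⟨p, ⟨hp, h0⟩, rfl⟩
    rw [SetLike.mem_coe, Submodule.mem_span_singleton]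
    rcases hp with rfl | hp
    · simp at h0
    · rcases Pool.Agent.X90.DD.ad_four hp h0 with rfl | rfl | rfl | rfl
      · exact ⟨1, by rw [Rat.smul_def]; simp⟩
      · refine ⟨1 / 4, ?_⟩
        rw [Rat.smul_def]
        have := Pool.Agent.X90.DD.mz_31
        push_cast
        linarith
      · refine ⟨3 / 4, ?_⟩
        rw [Rat.smul_def]
        have := Pool.Agent.X90.DD.mz_22
        push_cast
        linarith
      · refine ⟨1, ?_⟩
        rw [Rat.smul_def, Pool.Agent.X90.DD.mz_211]
        simp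
  obtain ⟨q, rfl⟩ := Submodule.mem_span_singleton.1 (h1 hx)
  exact ⟨q, by rw [Rat.smul_def]⟩

/-- the relations span a finite-dimensional space -/
theorem rel_finite {m : ℕ} (W : ℕ) (L : Fin m → ℕ) (B : ℝ) :
    Module.Finite ℚ (relationSpace W L B) := by
  classical
  set S : Submodule ℚ (List ℕ →₀ ℚ) := Submodule.span ℚ ((fun w => Finsupp.single w (1 : ℚ)) ''
    ((Pool.Agent.X90.DE.ad (∑ i, L i + W) : Finset (List ℕ)) : Set (List ℕ))) with hS
  have h1 : Module.Finite ℚ S := by
    rw [hS]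
    exact Module.Finite.span_of_finite ℚ (Set.Finite.image _ (Finset.finite_toSet _))
  have h2 : relationSpace W L B ≤ S := by
    rw [relationSpace, Submodule.span_le]
    rintro c ⟨hc, -, -⟩
    rw [SetLike.mem_coe, ← Finsupp.sum_single c, Finsupp.sum]
    refine Submodule.sum_mem _ fun w hw => ?_
    have h3 : Finsupp.single w (c w) = c w • Finsupp.single w (1 : ℚ) := by
      rw [Finsupp.smul_single, smul_eq_mul, mul_one]
    rw [h3]
    refine Submodule.smul_mem _ _ (Submodule.subset_span ⟨w, ?_, rfl⟩)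
    obtain ⟨g1, g2, -⟩ := hc w hw
    exact Finset.mem_coe.2 (Pool.Agent.X90.DE.mem_ad.2 ⟨(adm_iff w).1 g1, g2⟩)
  exact Submodule.finiteDimensional_of_le h2

/-- Let `L_1, ..., L_m`, `m ≥ 1`, be nonzero linear forms in `k` variables with coefficients in `ℕ`.
(1) For all `W` and almost all `s` the relations with integer coefficients at most `C ^ (s_1 + ... + s_k)` between the
multiple zeta values of weight `L_1(s) + ... + L_m(s) + W` with arguments `t_1 ≥ L_1(s)`, ..., `t_m ≥ L_m(s)` in this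
order span a space of dimension `∑_{n ≤ W} 2 ^ (W - n) binom(m + W - n - 1, W - n) (a_n - dim Z_n)`, where `a_n` is the
number of admissible indices of weight `n`.
(2) For every `W_0`: `dim Z_n = d_n` for all `n ≤ W_0` if and only if for all `W ≤ W_0` and almost all `s` this dimension
is `∑_{n ≤ W} 2 ^ (W - n) binom(m + W - n - 1, W - n) (a_n - d_n)`.
(3) It is `0` for `W ≤ 2`, `1` for `W = 3` and `2 m + 3` for `W = 4`, for almost all `s`. -/
theorem result (k m : ℕ) (hm : 1 ≤ m) (c : Fin m → Fin k → ℕ) (hc : ∀ i, c i ≠ 0) :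
    (∀ W : ℕ, AlmostAll fun C (s : Fin k → ℕ) =>
      Module.finrank ℚ (relationSpace W (forms c s) (C ^ (∑ j, s j))) +
        ∑ n ∈ Finset.range (W + 1), mult m (W - n) * Module.finrank ℚ (weightSpace n) =
          ∑ n ∈ Finset.range (W + 1), mult m (W - n) * numIndices n) ∧
    (∀ W0 : ℕ, (∀ n ≤ W0, Module.finrank ℚ (weightSpace n) = zagier n) ↔
      ∀ W ≤ W0, AlmostAll fun C (s : Fin k → ℕ) =>
        Module.finrank ℚ (relationSpace W (forms c s) (C ^ (∑ j, s j))) +
          ∑ n ∈ Finset.range (W + 1), mult m (W - n) * zagier n =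
            ∑ n ∈ Finset.range (W + 1), mult m (W - n) * numIndices n) ∧
    (∀ W ≤ 2, AlmostAll fun C (s : Fin k → ℕ) =>
      relationSpace W (forms c s) (C ^ (∑ j, s j)) = ⊥) ∧
    (AlmostAll fun C (s : Fin k → ℕ) =>
      Module.finrank ℚ (relationSpace 3 (forms c s) (C ^ (∑ j, s j))) = 1) ∧
    (AlmostAll fun C (s : Fin k → ℕ) =>
      Module.finrank ℚ (relationSpace 4 (forms c s) (C ^ (∑ j, s j))) = 2 * m + 3) := by
  have hk := pos_of_forms hm hc
  have m1 : mult m 1 = 2 * m := by
    rw [mult, pow_one, Nat.add_sub_cancel, Nat.choose_one_right]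
  have m0 : mult m 0 = 1 := by rw [mult]; simp
  refine ⟨dims hm c hc, fun W0 => ⟨fun h W hW => ?_, fun h => ?_⟩, fun W hW => ?_, ?_, ?_⟩
  · refine (dims hm c hc W).mono fun C s h1 => ?_
    rw [← h1]
    congr 1
    refine sum_congr rfl fun n hn => ?_
    rw [h n (by have := mem_range.1 hn; omega)]
  · refine eq_of_sums m W0 _ _ fun W hW => ?_
    obtain ⟨s, h1, h2⟩ := ((dims hm c hc W).and (h W hW)).exists hk
    have h3 := h1.trans h2.symm
    exact Nat.add_left_cancel h3
  · refine (dims hm c hc W).mono fun C s h1 => ?_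
    have h2 : Module.finrank ℚ (relationSpace W (forms c s) (C ^ (∑ j, s j))) = 0 := by
      have h4 : ∑ n ∈ range (W + 1), mult m (W - n) * Module.finrank ℚ (weightSpace n) =
          ∑ n ∈ range (W + 1), mult m (W - n) * numIndices n := by
        refine sum_congr rfl fun n hn => ?_
        have hn' : n = 0 ∨ n = 1 ∨ n = 2 := by
          have := mem_range.1 hn
          omega
        rcases hn' with rfl | rfl | rfl
        · rw [rank_zero', numIndices]
        · rw [rank_one', numIndices]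
        · rw [rank_two', numIndices, pow_zero]
      omega
    have := rel_finite W (forms c s) (C ^ (∑ j, s j))
    exact Submodule.finrank_eq_zero.1 h2
  · refine (dims hm c hc 3).mono fun C s h1 => ?_
    simp only [Finset.sum_range_succ, Finset.sum_range_zero, rank_zero', rank_one', rank_two',
      rank_three', numIndices, Nat.sub_self, m0] at h1
    omega
  · refine (dims hm c hc 4).mono fun C s h1 => ?_
    have e1 : 4 - 3 = 1 := rfl
    simp only [Finset.sum_range_succ, Finset.sum_range_zero, rank_zero', rank_one', rank_two',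
      rank_three', rank_four', numIndices, Nat.sub_self, m0, e1, m1] at h1
    omega

end Pool.Agent.Results.MP_56e040_nt.SeveralLargeArguments
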