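import Pool.Agent.K6.H18.ZT.All

/-!
# Zagier's dimension conjecture and the transcendence degrees of the fields of multiple zeta values

Let `Z_n` be the `ℚ`-space spanned by the multiple zeta values of weight `n`, `d_n` Zagier's numbers,
and `K_n` the field generated by the multiple zeta values of weight at most `n`. The known structure of
the algebra of motivic multiple zeta values (Goncharov, Deligne-Goncharov, Brown; Radford) is used in
the following form (`PolynomialLift`): there is a polynomial ring over `ℚ` in variables `X i` of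
weights `w i ≥ 1`, finitely many in each weight, and a homomorphism `per` from this ring to `ℝ`, such that
the space of the polynomials of weight `n` has dimension `d_n` and is mapped onto `Z_n`. (The variables
are the motivic `ζ(2)` and the Lyndon words in letters of the weights `3, 5, 7, …`.) Let `L_n` be the number
of the variables of weight at most `n` (`num w n`), so that `trdeg K_n ≤ L_n`.

**Theorem.** The number `L_n - trdeg K_n`, the *defect*, is not negative, and:

(1) The following are equivalent: `dim Z_n = d_n` for all `n` (the conjecture) and the sum of the spaces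
`Z_n` is direct; the defect is zero for all `n`; the defect is zero for infinitely many `n`.

(2) The following are equivalent:

* either the conjecture holds and the sum of the spaces `Z_n` is not direct, or the sum is direct and,
  for some `m ≥ 5`, `dim Z_n = d_n` for `n < m` and `dim Z_n = d_n - d_(n-m)` for all `n ≥ m`;
* the defect is one for all large `n`;
* the defect is one for infinitely many `n`.

So if the defect is one, then exactly one of two statements, the conjecture and the directness of the
sum, is true, and if the conjecture is false then all relations between multiple zeta values are the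
multiples of a single homogeneous relation. The conjecture, a statement on the `ℚ`-linear relations
between the multiple zeta values of the same weight, implies that the defect is at most one (this
implication is also in the team's `UpToOneRelation`); the other implications are new.

**Proof.** The kernel `𝔮` of `per` is a prime ideal. If `per` is injective on the homogeneous polynomials of
each weight, then `X i ↦ per(X i) t^(w i)` is an injective homomorphism to `ℝ[t]`, and
`trdeg K_n(t) = trdeg K_n + 1`. If the defect is at most one for infinitely many `n`, then all but at most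
one of the `per(X i)` are algebraically independent, so `𝔮` is generated by one element `g` (Gauss). If `per`
is not injective on the polynomials of some weight, then `𝔮` contains a homogeneous element different
from zero, which is divisible by `g`, so `g` is homogeneous. Then the kernel of `per` in weight `n` is the
product of `g` with the polynomials of weight `n - m`. Conversely, if the dimensions are as in (2) and the
sum is direct, then `𝔮` is generated by one homogeneous element `g`, and if the variable `X j` occurs in
`g` then the `per(X i)`, `i ≠ j`, are algebraically independent.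

The pieces of the proof are by helper31 (CNT), helper7 (GLO), helper78 (PRI), helper21 (FAC), helper3 (FD),
helper82 (DIM), helper48 (CON), helper13 (ALM), helper29 (GRD), helper4 (GEN).
-/

set_option autoImplicit false

open Module MvPolynomial Filter

namespace Pool.Agent.Results.MP_56e040_nt.TranscendenceDegrees

/-- `trunc [s_1, ..., s_r] m` is the sum of `∏ n_i ^ (-s_i)` over `m > n_1 > ... > n_r ≥ 1` -/
noncomputable def trunc : List ℕ → ℕ → ℝ
  | [], _ => 1
  | s :: l, m => ∑ j ∈ Finset.Ico 1 m, trunc l j / (j : ℝ) ^ s

/-- the multiple zeta value `ζ(s_1, ..., s_r)`, the sum of `∏ n_i ^ (-s_i)` over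
`n_1 > ... > n_r ≥ 1`; `ζ() = 1` -/
noncomputable def mzv : List ℕ → ℝ
  | [] => 1
  | s :: l => ∑' m : ℕ, trunc l (m + 1) / ((m + 1 : ℕ) : ℝ) ^ s

/-- admissible indices: the empty index and `(s_1, ..., s_r)` with `s_1 ≥ 2` and all `s_i ≥ 1` -/
def Admissible : List ℕ → Prop
  | [] => True
  | s :: l => 2 ≤ s ∧ ∀ t ∈ l, 1 ≤ t

/-- the space `Z_n` spanned by the multiple zeta values of weight `n` -/
noncomputable def weightSpace (n : ℕ) : Submodule ℚ ℝ :=
  Submodule.span ℚ (mzv '' {p | Admissible p ∧ p.sum = n})

/-- the field `K_n` generated by the multiple zeta values of weight at most `n` -/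
noncomputable def weightField (n : ℕ) : IntermediateField ℚ ℝ :=
  IntermediateField.adjoin ℚ (mzv '' {p | Admissible p ∧ p.sum ≤ n})

/-- Zagier's numbers `d_0 = 1`, `d_1 = 0`, `d_2 = 1`, `d_n = d_(n - 2) + d_(n - 3)` -/
def zagier : ℕ → ℕ
  | 0 => 1
  | 1 => 0
  | 2 => 1
  | n + 3 => zagier (n + 1) + zagier n

/-- The known facts on the algebra of the motivic multiple zeta values, a polynomial ring in variables
`X i` of weight `w i`, and its period map `per`: the weights are positive, there are finitely many
variables of each weight, the polynomials of weight `n` form a space of dimension `d_n`, and `per` maps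
it onto `Z_n`. -/
def PolynomialLift {I : Type} (w : I → ℕ) (per : MvPolynomial I ℚ →ₐ[ℚ] ℝ) : Prop :=
  (∀ i, 1 ≤ w i) ∧ (∀ n, Finite {i : I // w i ≤ n}) ∧ ∀ n,
    finrank ℚ (weightedHomogeneousSubmodule ℚ w n) = zagier n ∧
      (weightedHomogeneousSubmodule ℚ w n).map per.toLinearMap = weightSpace n

/-- `L_n`: the number of the variables of weight at most `n` -/
noncomputable def num {I : Type} (w : I → ℕ) (n : ℕ) : ℕ := Nat.card {i : I // w i ≤ n}

/-- the transcendence degree of the field `K_n` -/
noncomputable def degree (n : ℕ) : Cardinal := Algebra.trdeg ℚ (weightField n)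

/-- Zagier's conjecture -/
def Zagier : Prop := ∀ n, finrank ℚ (weightSpace n) = zagier n

/-- `dim Z_n = d_n` for `n < m` and `dim Z_n = d_n - d_(n-m)` for `n ≥ m` -/
def OneRelation (m : ℕ) : Prop :=
  (∀ n, n < m → finrank ℚ (weightSpace n) = zagier n) ∧
    ∀ n, finrank ℚ (weightSpace (m + n)) + zagier n = zagier (m + n)

theorem zeta_pos (n : ℕ) (hn : 2 ≤ n) : mzv [n] ∈ weightSpace n ∧ 0 < mzv [n] := by
  refine ⟨Submodule.subset_span ⟨[n], ⟨⟨hn, by simp⟩, by simp⟩, rfl⟩, ?_⟩
  rw [mzv]
  simp only [trunc]
  have h1 : Summable fun m : ℕ => 1 / ((m + 1 : ℕ) : ℝ) ^ n := by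
    have h2 := (Real.summable_one_div_nat_pow (p := n)).2 (by omega)
    exact (summable_nat_add_iff 1).2 h2
  exact h1.tsum_pos (fun i => by positivity) 0 (by positivity)

theorem five_le {m : ℕ} [FiniteDimensional ℚ (weightSpace m)]
    (h : finrank ℚ (weightSpace m) + 1 = zagier m) : 5 ≤ m := by
  by_contra hlt
  have key : ∀ x ∈ weightSpace m, x ≠ 0 → finrank ℚ (weightSpace m) ≠ 0 := by
    intro x hx h0 hz
    rw [Submodule.finrank_eq_zero] at hz
    rw [hz] at hx
    exact h0 ((Submodule.mem_bot ℚ).1 hx)
  have hm : m = 0 ∨ m = 1 ∨ m = 2 ∨ m = 3 ∨ m = 4 := by omega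
  rcases hm with rfl | rfl | rfl | rfl | rfl
  · have h1 : finrank ℚ (weightSpace 0) = 0 := by simp [zagier] at h; simpa using h
    refine key (mzv []) ?_ ?_ h1
    · exact Submodule.subset_span ⟨[], ⟨trivial, rfl⟩, rfl⟩
    · rw [mzv]; exact one_ne_zero
  · simp [zagier] at h
  · have h1 : finrank ℚ (weightSpace 2) = 0 := by simp [zagier] at h; simpa using h
    exact key _ (zeta_pos 2 le_rfl).1 (zeta_pos 2 le_rfl).2.ne' h1
  · have h1 : finrank ℚ (weightSpace 3) = 0 := by simp [zagier] at h; simpa using h
    exact key _ (zeta_pos 3 (by norm_num)).1 (zeta_pos 3 (by norm_num)).2.ne' h1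
  · have h1 : finrank ℚ (weightSpace 4) = 0 := by simp [zagier] at h; simpa using h
    exact key _ (zeta_pos 4 (by norm_num)).1 (zeta_pos 4 (by norm_num)).2.ne' h1

theorem field_eq (n : ℕ) :
    weightField n = IntermediateField.adjoin ℚ {x : ℝ | ∃ m ≤ n, x ∈ weightSpace m} := by
  apply le_antisymm
  · rw [weightField, IntermediateField.adjoin_le_iff]
    rintro x ⟨p, ⟨h1, h2⟩, rfl⟩
    exact IntermediateField.subset_adjoin ℚ _ ⟨p.sum, h2, Submodule.subset_span ⟨p, ⟨h1, rfl⟩, rfl⟩⟩
  · rw [IntermediateField.adjoin_le_iff]
    rintro x ⟨m, hm, hx⟩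
    have h1 : weightSpace m ≤ Subalgebra.toSubmodule (weightField n).toSubalgebra := by
      rw [weightSpace, Submodule.span_le]
      rintro y ⟨p, ⟨h2, h3⟩, rfl⟩
      exact IntermediateField.subset_adjoin ℚ _ ⟨p, ⟨h2, h3.le.trans hm⟩, rfl⟩
    exact h1 hx

/-- **Zagier's conjecture and transcendence degrees.** See the introduction of this file. -/
theorem result {I : Type} (w : I → ℕ) (per : MvPolynomial I ℚ →ₐ[ℚ] ℝ)
    (hM : PolynomialLift w per) :
    (∀ n, degree n ≤ num w n) ∧
    [ Zagier ∧ iSupIndep weightSpace,
      ∀ n, degree n = num w n,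
      ∃ᶠ n in atTop, degree n = num w n ].TFAE ∧
    [ (Zagier ∧ ¬ iSupIndep weightSpace) ∨ ∃ m, 5 ≤ m ∧ OneRelation m ∧ iSupIndep weightSpace,
      ∀ᶠ n in atTop, degree n + 1 = num w n,
      ∃ᶠ n in atTop, degree n + 1 = num w n ].TFAE := by
  obtain ⟨h1, h2, h3⟩ := hM
  have P := Pool.Agent.K6.H18.ZT.pieces
  have hw : Pool.Agent.K6.H18.ZT.Fin' w := ⟨h1, h2⟩
  have hfd := (P.fd I w hw).1
  have e1 : Pool.Agent.K6.H18.ZT.Z w per = weightSpace := funext fun n => (h3 n).2
  have e2 : ∀ n, finrank ℚ (Pool.Agent.K6.H18.ZT.Hm w n) = zagier n := fun n => (h3 n).1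
  have e3 : ∀ n, Pool.Agent.K6.H18.ZT.fld w per n = weightField n := fun n => by
    rw [field_eq, ← P.gen I w per hw n, e1]
  have e4 : ∀ n, Algebra.trdeg ℚ (Pool.Agent.K6.H18.ZT.fld w per n) = degree n := fun n => by
    rw [e3, degree]
  have e5 : ∀ n, Pool.Agent.K6.H18.ZT.num w n = num w n := fun n => rfl
  have e6 : ∀ n, finrank ℚ (Pool.Agent.K6.H18.ZT.Z w per n) = finrank ℚ (weightSpace n) := fun n => by
    rw [e1]
  have t1 := Pool.Agent.K6.H18.ZT.tfae_all (per := per) P hw
  have t2 := Pool.Agent.K6.H18.ZT.tfae_defect (per := per) P hw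
  have t4 := fun n => (Pool.Agent.K6.H18.ZT.levels (per := per) P.cnt hw n).1
  simp only [e6, e1, e2, e4, e5, Pool.Agent.K6.H18.ZT.OneRelation] at t1 t2 t4
  refine ⟨t4, t1, ?_⟩
  have hfive : (∃ m, ((∀ n, n < m → finrank ℚ (weightSpace n) = zagier n) ∧
      ∀ n, finrank ℚ (weightSpace (m + n)) + zagier n = zagier (m + n)) ∧ iSupIndep weightSpace) ↔
      ∃ m, 5 ≤ m ∧ OneRelation m ∧ iSupIndep weightSpace := by
    constructor
    · rintro ⟨m, ⟨h4, h5⟩, h6⟩
      have i1 : FiniteDimensional ℚ (weightSpace m) := by
        rw [← (h3 m).2]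
        have := hfd m
        infer_instance
      have h7 := h5 0
      rw [add_zero] at h7
      exact ⟨m, five_le (by simpa [zagier] using h7), ⟨h4, h5⟩, h6⟩
    · rintro ⟨m, -, ⟨h4, h5⟩, h6⟩
      exact ⟨m, ⟨h4, h5⟩, h6⟩
  rw [hfive] at t2
  exact t2

end Pool.Agent.Results.MP_56e040_nt.TranscendenceDegrees
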