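import Pool.Agent.K6.H54.ZG.Inc

/-!
# MP_56e040_nt: Zagier's conjecture and the algebraic relations between multiple zeta values

`Z_n` is the space spanned over `ℚ` by the multiple zeta values of weight `n`, `d_n` Zagier's numbers,
`g_n = (1/n) ∑_(d | n) μ(n/d) P_d` (`P` the Perrin numbers) the number of generators of weight `n` of a
graded polynomial algebra with the Hilbert series `1 / (1 - x² - x³)`.  Q1 asks for `dim Z_n = d_n` for
all `n`; it says nothing about relations between different weights.  Assuming the known structure of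
the algebra of motivic multiple zeta values (`MotivicLift`) it is shown here:

1. Q1 is equivalent to: for one real number `t` the sum of the spaces `t^i Z_i`, `i ≤ n`, has the
   dimension `d_0 + ... + d_n` for all `n`; and to: this is so for all `t` outside a countable set.
2. Q1 implies:
   (a) the ideal of all polynomial relations with rational coefficients between multiple zeta values (in
       variables `Y_p`, one for every admissible index `p`) is generated by the relations which are
       homogeneous for the weight and one more polynomial `F`;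
   (b) for some `k₀` the numbers `ζ(2), ζ(3), ζ(5), ζ(7), ...` without the `k₀`-th are algebraically
       independent;
   (c) for all `N` there are at least `g_0 + ... + g_N - 1` algebraically independent numbers in the union
       of the `Z_n`, `n ≤ N`;
   (d) with `S_n = Z_0 + ... + Z_n` and `D_n = d_0 + ... + d_n`: either `dim S_n = D_n` for all `n`, or there is
       `k ≥ 1` with `dim S_n = D_n` for `n < k` and `dim S_(n + k) = D_(n + k) - D_n` for all `n`.
3. Without Q1, there are at most `g_0 + ... + g_N` algebraically independent numbers in the union of the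
   `Z_n`, `n ≤ N`, and at most `g_0 + ... + g_N - 1` of them if `dim Z_m ≠ d_m` for some `m ≤ N`.

So if the number of algebraically independent elements is `g_0 + ... + g_N` for infinitely many `N` then
Q1 holds, and if Q1 holds then it is at least `g_0 + ... + g_N - 1` for all `N`.

Proof of 1 and 2: let `q` be the ring homomorphism which is `t^n per` on the part of weight `n`. If `t` is
transcendental over the (countable) field of the multiple zeta values then by Q1 `q` is injective (compare
the coefficients of the powers of `t`), so `q` maps the generators to algebraically independent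
numbers. They lie in the ring generated by `t` and the periods of the generators; adding the one number
`t` raises the transcendence degree by at most one. Hence the periods of all generators but at most one
are algebraically independent, and the kernel of `per` is principal by Gauss's lemma (a polynomial ring
is factorial). By Q1 the map from `ℚ[Y_p]` to `H` given by the lifts is surjective and its kernel is
generated by homogeneous relations. For (d) let `F` generate the kernel of `per`, `F ≠ 0`, and let `k` be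
the largest weight in `F`; `H` is a graded domain, so the kernel of `per` on `H_0 + ... + H_(n + k)` is
`F (H_0 + ... + H_n)`. For 3: a homogeneous relation is a relation between the periods of
the generators.
-/

set_option autoImplicit false

open Module

namespace Pool.Agent.Results.MP_56e040_nt.UpToOneRelation

/-- `trunc [s_1, ..., s_r] m` is the sum of `∏ n_i ^ (-s_i)` over `m > n_1 > ... > n_r ≥ 1` -/
noncomputable def trunc : List ℕ → ℕ → ℝ
  | [], _ => 1
  | s :: l, m => ∑ j ∈ Finset.Ico 1 m, trunc l j / (j : ℝ) ^ s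

/-- the multiple zeta value `ζ(s_1, ..., s_r)`, the sum of `∏ n_i ^ (-s_i)` over
`n_1 > ... > n_r ≥ 1`; `ζ() = 1` -/
noncomputable def mzv : List ℕ → ℝ
  | [] => 1
  | s :: l => ∑' m : ℕ, trunc l (m + 1) / ((m + 1 : ℕ) : ℝ) ^ s

/-- admissible indices: the empty index and `(s_1, ..., s_r)` with `s_1 ≥ 2` and all `s_i ≥ 1` -/
def Admissible : List ℕ → Prop
  | [] => True
  | s :: l => 2 ≤ s ∧ ∀ t ∈ l, 1 ≤ t

/-- the space `Z_n` spanned by the multiple zeta values of weight `n` -/
noncomputable def weightSpace (n : ℕ) : Submodule ℚ ℝ :=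
  Submodule.span ℚ (mzv '' {p | Admissible p ∧ p.sum = n})

/-- Zagier's numbers `d_0 = 1`, `d_1 = 0`, `d_2 = 1`, `d_n = d_(n - 2) + d_(n - 3)` -/
def zagier : ℕ → ℕ
  | 0 => 1
  | 1 => 0
  | 2 => 1
  | n + 3 => zagier (n + 1) + zagier n

/-- the Perrin numbers -/
def perrin : ℕ → ℕ
  | 0 => 3
  | 1 => 0
  | 2 => 2
  | n + 3 => perrin (n + 1) + perrin n

/-- the number `(1/n) ∑_(d | n) μ(n/d) P_d` of the generators of weight `n` of a graded polynomial ring
with the Hilbert series `1 / (1 - x² - x³)` -/
def gens (n : ℕ) : ℕ :=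
  ((∑ d ∈ n.divisors, ArithmeticFunction.moebius (n / d) * (perrin d : ℤ)) / n).toNat

/-- the sum of the spaces `t^i Z_i`, `i ≤ n`, in `ℝ` -/
noncomputable def twisted (t : ℝ) (n : ℕ) : Submodule ℚ ℝ :=
  ⨆ i ∈ Finset.range (n + 1), (weightSpace i).map (LinearMap.mulLeft ℚ (t ^ i))

/-- the sum `Z_0 + ... + Z_n` in `ℝ` -/
noncomputable def sumSpace (n : ℕ) : Submodule ℚ ℝ := ⨆ i ∈ Finset.range (n + 1), weightSpace i

/-- `ζ(2), ζ(3), ζ(5), ζ(7), …` -/
noncomputable def oddZeta (k : ℕ) : ℝ := if k = 0 then mzv [2] else mzv [2 * k + 1]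

/-- the admissible indices -/
abbrev Idx : Type := {p : List ℕ // Admissible p}

/-- the polynomial relations with rational coefficients between the multiple zeta values: the ideal of
the polynomials in variables `Y_p`, one for every admissible index `p`, which vanish at `Y_p = ζ(p)` -/
noncomputable def relations : Ideal (MvPolynomial Idx ℚ) :=
  RingHom.ker (MvPolynomial.aeval (R := ℚ) (fun p : Idx => mzv p.1))

/-- the relations which are homogeneous for the weight -/
def homRelations : Set (MvPolynomial Idx ℚ) :=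
  {f | f ∈ relations ∧ ∃ n, MvPolynomial.IsWeightedHomogeneous (fun p : Idx => p.1.sum) f n}

/-- The known facts on the algebra `H` of the motivic multiple zeta values and its period map. -/
def MotivicLift : Prop :=
  ∃ (H : Type) (_ : CommRing H) (_ : IsDomain H) (_ : Algebra ℚ H) (A : ℕ → Submodule ℚ H)
    (_ : GradedAlgebra A) (per : H →ₐ[ℚ] ℝ) (ι : Type) (w : ι → ℕ) (x : ι → H) (c : ℕ → ι),
    (∀ n, FiniteDimensional ℚ (A n) ∧ finrank ℚ (A n) = zagier n ∧
      (A n).map per.toLinearMap = weightSpace n) ∧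
    AlgebraicIndependent ℚ x ∧ Algebra.adjoin ℚ (Set.range x) = ⊤ ∧ (∀ i, x i ∈ A (w i)) ∧
    (∀ n, {i | w i = n}.Finite ∧ {i | w i = n}.ncard = gens n) ∧
    Function.Injective c ∧ ∀ k, per (x (c k)) = oddZeta k

/-! ### the twisted period map -/

section twist

variable {H : Type} [CommRing H] [IsDomain H] [Algebra ℚ H] (A : ℕ → Submodule ℚ H)
  [GradedAlgebra A] (per : H →ₐ[ℚ] ℝ) (t : ℝ)

/-- the homomorphism which is `t^n per` on `A n` -/
noncomputable def pt : H →ₐ[ℚ] ℝ :=
  (DirectSum.toAlgebra ℚ (fun i => A i)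
    (fun i => (LinearMap.mulLeft ℚ (t ^ i)) ∘ₗ per.toLinearMap ∘ₗ (A i).subtype)
    (by
      show t ^ 0 * per (1 : H) = 1
      rw [map_one, pow_zero, mul_one])
    (by
      intro i j a b
      show t ^ (i + j) * per ((a : H) * (b : H)) = (t ^ i * per (a : H)) * (t ^ j * per (b : H))
      rw [map_mul, pow_add]
      ring)).comp
    (DirectSum.decomposeAlgEquiv A).toAlgHom

theorem pt_of_mem {n : ℕ} {h : H} (hh : h ∈ A n) : pt A per t h = t ^ n * per h := by
  have h1 : (DirectSum.decomposeAlgEquiv A).toAlgHom h =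
      DirectSum.of (fun i => A i) n ⟨h, hh⟩ := DirectSum.decompose_of_mem A hh
  rw [pt, AlgHom.comp_apply, h1]
  exact DirectSum.toAddMonoid_of (fun i => ((LinearMap.mulLeft ℚ (t ^ i)) ∘ₗ per.toLinearMap ∘ₗ
    (A i).subtype).toAddMonoidHom) n ⟨h, hh⟩

theorem pt_inj (K : IntermediateField ℚ ℝ) (hK : ∀ h, per h ∈ K) (ht : Transcendental K t)
    (hinj : ∀ n, ∀ h ∈ A n, per h = 0 → h = 0) : Function.Injective (pt A per t) := by
  classical
  rw [injective_iff_map_eq_zero]
  intro h hh
  have hsum := DirectSum.sum_support_decompose A h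
  set S := DFinsupp.support (DirectSum.decompose A h) with hS
  set g : ℕ → H := fun i => ((DirectSum.decompose A h i : A i) : H) with hg
  have hgm : ∀ i, g i ∈ A i := fun i => (DirectSum.decompose A h i).2
  have h1 : ∑ i ∈ S, t ^ i * per (g i) = 0 := by
    rw [← hh]
    conv_rhs => rw [← hsum, map_sum]
    exact Finset.sum_congr rfl fun i _ => (pt_of_mem A per t (hgm i)).symm
  let P : Polynomial K := ∑ i ∈ S, Polynomial.monomial i (⟨per (g i), hK _⟩ : K)
  have hP : Polynomial.aeval t P = 0 := by
    rw [← h1, map_sum]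
    refine Finset.sum_congr rfl fun i _ => ?_
    rw [Polynomial.aeval_monomial, mul_comm]
    rfl
  have hP0 : P = 0 := transcendental_iff.1 ht P hP
  have hcoef : ∀ i ∈ S, g i = 0 := by
    intro i hi
    refine hinj i (g i) (hgm i) ?_
    have h2 : P.coeff i = 0 := by rw [hP0, Polynomial.coeff_zero]
    have h3 : P.coeff i = (⟨per (g i), hK _⟩ : K) := by
      show (∑ i ∈ S, Polynomial.monomial i (⟨per (g i), hK _⟩ : K)).coeff i = _
      rw [Polynomial.finsetSum_coeff, Finset.sum_eq_single i]
      · rw [Polynomial.coeff_monomial_same]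
      · intro j _ hj
        exact Polynomial.coeff_monomial_of_ne _ (Ne.symm hj)
      · intro h4; exact absurd hi h4
    rw [h3] at h2
    exact congrArg (fun y : K => (y : ℝ)) h2
  rw [← hsum]
  exact Finset.sum_eq_zero hcoef

/-- among the images of independent homogeneous elements all but one are independent -/
theorem many_indep {ι : Type} (h : ι → H) (w : ι → ℕ) (hw : ∀ i, h i ∈ A (w i))
    (hh : AlgebraicIndependent ℚ h) (inj : Function.Injective (pt A per t)) (s : Finset ι) :
    ∃ u ⊆ s, s.card ≤ u.card + 1 ∧ AlgebraicIndependent ℚ (fun i : u => per (h i)) := by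
  classical
  set M := AlgebraicIndependent.matroid ℚ ℝ with hM
  have hq : AlgebraicIndependent ℚ (fun i => pt A per t (h i)) := hh.map' inj
  have hqinj : Function.Injective (fun i => pt A per t (h i)) := hq.injective
  set I : Set ℝ := (fun i => pt A per t (h i)) '' (s : Set ι) with hI
  set X : Set ℝ := (fun i => per (h i)) '' (s : Set ι) with hX
  have hIind : M.Indep I := by
    have h1 : M.Indep (Set.range fun i => pt A per t (h i)) := by
      rw [AlgebraicIndependent.matroid_indep_iff]
      exact hq.coe_range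
    exact h1.subset (Set.image_subset_range _ _)
  have hIcard : I.encard = s.card := by
    rw [hI, hqinj.injOn.encard_image, Set.encard_coe_eq_coe_finsetCard]
  have hsub : I ⊆ M.closure (insert t X) := by
    rintro _ ⟨i, hi, rfl⟩
    rw [hM, AlgebraicIndependent.matroid_closure_eq]
    have h2 : pt A per t (h i) ∈ Algebra.adjoin ℚ (insert t X) := by
      rw [pt_of_mem A per t (hw i)]
      refine mul_mem (pow_mem (Algebra.subset_adjoin (Set.mem_insert _ _)) _) ?_
      exact Algebra.subset_adjoin (Set.mem_insert_of_mem _ ⟨i, hi, rfl⟩)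
    exact isAlgebraic_algebraMap (R := Algebra.adjoin ℚ (insert t X)) (A := ℝ) ⟨_, h2⟩
  have hrk : (s.card : ℕ∞) ≤ M.eRk X + 1 := by
    rw [← hIcard]
    calc I.encard ≤ M.eRk (M.closure (insert t X)) := hIind.encard_le_eRk_of_subset hsub
      _ = M.eRk (insert t X) := M.eRk_closure_eq _
      _ ≤ M.eRk X + 1 := M.eRk_insert_le_add_one _ _
  obtain ⟨B, hB⟩ := M.exists_isBasis X (by rw [hM]; exact Set.subset_univ _)
  have hBsub : Set.SurjOn (fun i => per (h i)) (s : Set ι) B := hB.subset
  obtain ⟨u', hu's, hbij⟩ := hBsub.exists_bijOn_subset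
  have hfin : u'.Finite := s.finite_toSet.subset hu's
  refine ⟨hfin.toFinset, ?_, ?_, ?_⟩
  · intro i hi
    exact hu's (hfin.mem_toFinset.1 hi)
  · have h3 : B.encard = (hfin.toFinset.card : ℕ∞) := by
      rw [← hbij.image_eq, hbij.injOn.encard_image, ← Set.encard_coe_eq_coe_finsetCard,
        hfin.coe_toFinset]
    rw [← hB.encard_eq_eRk, h3] at hrk
    exact_mod_cast hrk
  · have h4 : AlgebraicIndepOn ℚ id B := by
      rw [← AlgebraicIndependent.matroid_indep_iff]
      exact hB.indep
    have h5 := AlgebraicIndependent.comp h4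
      (fun i : hfin.toFinset => (⟨per (h i), hbij.mapsTo (hfin.mem_toFinset.1 i.2)⟩ : B))
      (by
        intro i j hij
        have h6 : per (h i) = per (h j) := congrArg Subtype.val hij
        exact Subtype.ext (hbij.injOn (hfin.mem_toFinset.1 i.2) (hfin.mem_toFinset.1 j.2) h6))
    exact h5

end twist

/-! ### the upper bound -/

section upper

variable {H : Type} [CommRing H] [IsDomain H] [Algebra ℚ H] (A : ℕ → Submodule ℚ H)
  [GradedAlgebra A] (per : H →ₐ[ℚ] ℝ) {ι : Type} (w : ι → ℕ) (x : ι → H)

theorem adjoin_mono' {m n : ℕ} (h : m ≤ n) :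
    Algebra.adjoin ℚ (x '' {i | w i ≤ m}) ≤ Algebra.adjoin ℚ (x '' {i | w i ≤ n}) :=
  Algebra.adjoin_mono (Set.image_mono fun _ hi => le_trans hi h)

/-- an element of weight `n` is a polynomial in the generators of weight at most `n` -/
theorem mem_adjoin (hxw : ∀ i, x i ∈ A (w i)) (htop : Algebra.adjoin ℚ (Set.range x) = ⊤)
    {n : ℕ} {h : H} (hh : h ∈ A n) : h ∈ Algebra.adjoin ℚ (x '' {i | w i ≤ n}) := by
  classical
  have hmon : ∀ y ∈ Submonoid.closure (Set.range x),
      ∃ d, y ∈ A d ∧ y ∈ Algebra.adjoin ℚ (x '' {i | w i ≤ d}) := by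
    intro y hy
    induction hy using Submonoid.closure_induction with
    | mem y hy =>
      obtain ⟨i, rfl⟩ := hy
      exact ⟨w i, hxw i, Algebra.subset_adjoin ⟨i, le_refl (w i), rfl⟩⟩
    | one => exact ⟨0, SetLike.GradedOne.one_mem, one_mem _⟩
    | mul y z _ _ ihy ihz =>
      obtain ⟨d, h1, h2⟩ := ihy
      obtain ⟨e, h3, h4⟩ := ihz
      exact ⟨d + e, SetLike.GradedMul.mul_mem h1 h3,
        mul_mem (adjoin_mono' w x (Nat.le_add_right d e) h2)
          (adjoin_mono' w x (Nat.le_add_left e d) h4)⟩
  have hspan : ∀ y ∈ Submodule.span ℚ (Submonoid.closure (Set.range x) : Set H), ∀ k,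
      ((DirectSum.decompose A y k : A k) : H) ∈ Algebra.adjoin ℚ (x '' {i | w i ≤ k}) := by
    intro y hy
    induction hy using Submodule.span_induction with
    | mem y hy =>
      intro k
      obtain ⟨d, h1, h2⟩ := hmon y hy
      by_cases hk : d = k
      · subst hk
        rw [DirectSum.decompose_of_mem_same A h1]
        exact h2
      · rw [DirectSum.decompose_of_mem_ne A h1 hk]
        exact zero_mem _
    | zero =>
      intro k
      rw [DirectSum.decompose_zero]
      exact zero_mem _
    | add y z _ _ ihy ihz =>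
      intro k
      rw [DirectSum.decompose_add]
      exact add_mem (ihy k) (ihz k)
    | smul a y _ ih =>
      intro k
      rw [DirectSum.decompose_smul]
      exact Subalgebra.smul_mem _ (ih k) a
  have h1 : h ∈ Submodule.span ℚ (Submonoid.closure (Set.range x) : Set H) := by
    rw [← Algebra.adjoin_eq_span, htop]
    exact Submodule.mem_top
  have h2 := hspan h h1 n
  rwa [DirectSum.decompose_of_mem_same A hh] at h2

/-- the number of algebraically independent periods is at most the number of generators, and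
smaller if there is a relation -/
theorem card_le (hxw : ∀ i, x i ∈ A (w i)) (htop : Algebra.adjoin ℚ (Set.range x) = ⊤) (N : ℕ)
    (S : Finset ι) (hS : ∀ i, w i ≤ N → i ∈ S) (T : Finset ℝ)
    (hT : ∀ a ∈ T, ∃ n ≤ N, ∃ h ∈ A n, per h = a)
    (hTi : AlgebraicIndependent ℚ (fun a : T => (a : ℝ))) :
    T.card ≤ S.card ∧ (∀ m ≤ N, ∀ a ∈ A m, a ≠ 0 → per a = 0 → T.card + 1 ≤ S.card) := by
  classical
  set M := AlgebraicIndependent.matroid ℚ ℝ with hM
  set X : Set ℝ := (fun i => per (x i)) '' (S : Set ι) with hX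
  have hXfin : X.Finite := S.finite_toSet.image _
  have hXcard : X.encard ≤ S.card := by
    rw [← Set.encard_coe_eq_coe_finsetCard]
    exact Set.encard_image_le _ _
  have hTsub : (T : Set ℝ) ⊆ M.closure X := by
    intro a ha
    obtain ⟨n, hn, h, hh, rfl⟩ := hT a ha
    rw [hM, AlgebraicIndependent.matroid_closure_eq]
    have h1 := adjoin_mono' w x hn (mem_adjoin A w x hxw htop hh)
    have h2 : per h ∈ (Algebra.adjoin ℚ (x '' {i | w i ≤ N})).map per := ⟨h, h1, rfl⟩
    rw [AlgHom.map_adjoin, ← Set.image_comp] at h2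
    have h3 : per h ∈ Algebra.adjoin ℚ X :=
      Algebra.adjoin_mono (Set.image_mono fun i hi => hS i hi) h2
    exact isAlgebraic_algebraMap (R := Algebra.adjoin ℚ X) (A := ℝ) ⟨_, h3⟩
  have hTind : M.Indep (T : Set ℝ) := by
    rw [AlgebraicIndependent.matroid_indep_iff]
    exact hTi
  have hTrk : (T.card : ℕ∞) ≤ M.eRk X := by
    rw [← M.eRk_closure_eq, ← Set.encard_coe_eq_coe_finsetCard]
    exact hTind.encard_le_eRk_of_subset hTsub
  obtain ⟨B, hB⟩ := M.exists_isBasis X (by rw [hM]; exact Set.subset_univ _)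
  have hBX : B.encard ≤ X.encard := Set.encard_le_encard hB.subset
  rw [← hB.encard_eq_eRk] at hTrk
  refine ⟨by exact_mod_cast hTrk.trans (hBX.trans hXcard), ?_⟩
  intro m hm a ha hane ha0
  by_contra hcon
  have h1 : (S.card : ℕ∞) ≤ B.encard := by
    have : S.card ≤ T.card := by omega
    exact le_trans (by exact_mod_cast this) hTrk
  have h2 : B = X :=
    (hXfin.subset hB.subset).eq_of_subset_of_encard_le hB.subset (hXcard.trans h1)
  have h3 : X.encard = S.card := le_antisymm hXcard (h2 ▸ h1)
  have hinj : Set.InjOn (fun i => per (x i)) (S : Set ι) := by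
    refine Set.Finite.injOn_of_encard_image_eq S.finite_toSet ?_
    rw [Set.encard_coe_eq_coe_finsetCard]
    exact h3
  have hXind : AlgebraicIndepOn ℚ id X := by
    rw [← AlgebraicIndependent.matroid_indep_iff, ← hM, ← h2]
    exact hB.indep
  have hfam : AlgebraicIndependent ℚ (fun i : S => per (x i)) := by
    have h5 := AlgebraicIndependent.comp hXind
      (fun i : S => (⟨per (x i), ⟨i.1, i.2, rfl⟩⟩ : X))
      (by
        intro i j hij
        exact Subtype.ext (hinj i.2 j.2 (congrArg Subtype.val hij)))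
    exact h5
  have h6 := adjoin_mono' w x hm (mem_adjoin A w x hxw htop ha)
  have h7 : a ∈ Algebra.adjoin ℚ (Set.range fun i : S => x i) := by
    refine Algebra.adjoin_mono ?_ h6
    rintro _ ⟨i, hi, rfl⟩
    exact ⟨⟨i, hS i hi⟩, rfl⟩
  rw [Algebra.adjoin_range_eq_range_aeval] at h7
  obtain ⟨P, hP⟩ := h7
  have h8 : MvPolynomial.aeval (fun i : S => per (x i)) P = 0 := by
    rw [← ha0, ← hP]
    exact (MvPolynomial.comp_aeval_apply (fun i : S => x i) per P).symm
  have h9 : P = 0 := by
    have := hfam
    rw [algebraicIndependent_iff] at this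
    exact this P h8
  apply hane
  rw [← hP, h9]
  exact map_zero _

/-- if the dimension is too small then there is a relation -/
theorem exists_rel {m : ℕ} (hfin : FiniteDimensional ℚ (A m))
    (hne : finrank ℚ ((A m).map per.toLinearMap) ≠ finrank ℚ (A m)) :
    ∃ a ∈ A m, a ≠ 0 ∧ per a = 0 := by
  by_contra hcon
  push Not at hcon
  apply hne
  have hinj : Function.Injective (per.toLinearMap.domRestrict (A m)) := by
    rw [injective_iff_map_eq_zero]
    rintro ⟨a, ha⟩ h0
    by_contra h1
    exact hcon a ha (fun h2 => h1 (Subtype.ext h2)) h0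
  rw [← LinearMap.range_domRestrict]
  exact LinearMap.finrank_range_of_inj hinj

end upper

/-! ### the ideal of the relations -/

/-- the kernel of a homomorphism `R[X] → ℝ` which is injective on the factorial ring `R` is
principal -/
theorem ker_poly {R : Type} [CommRing R] [IsDomain R] [UniqueFactorizationMonoid R]
    (φ : Polynomial R →+* ℝ) (hinj : Function.Injective (φ.comp Polynomial.C)) :
    ∃ F, ∀ g, φ g = 0 ↔ F ∣ g := by
  classical
  let _ : NormalizedGCDMonoid R := Classical.choice (inferInstance : Nonempty (NormalizedGCDMonoid R))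
  let K := FractionRing R
  let j : K →+* ℝ := IsFractionRing.lift (A := R) (K := K) (L := ℝ) hinj
  let ψ : Polynomial K →+* ℝ := Polynomial.eval₂RingHom j (φ Polynomial.X)
  have hψ : ∀ g : Polynomial R, ψ (g.map (algebraMap R K)) = φ g := by
    intro g
    have h1 : ψ.comp (Polynomial.mapRingHom (algebraMap R K)) = φ := by
      refine Polynomial.ringHom_ext ?_ ?_
      · intro a
        show Polynomial.eval₂ j (φ Polynomial.X)
          ((Polynomial.C a).map (algebraMap R K)) = _
        rw [Polynomial.map_C, Polynomial.eval₂_C]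
        exact IsFractionRing.lift_algebraMap hinj a
      · show Polynomial.eval₂ j (φ Polynomial.X)
          ((Polynomial.X).map (algebraMap R K)) = _
        rw [Polynomial.map_X, Polynomial.eval₂_X]
    rw [← h1]
    rfl
  obtain ⟨G, hG⟩ := (IsPrincipalIdealRing.principal (RingHom.ker ψ)).principal
  have hG' : ∀ p, ψ p = 0 ↔ G ∣ p := by
    intro p
    rw [← RingHom.mem_ker, hG, Ideal.submodule_span_eq, Ideal.mem_span_singleton]
  by_cases hG0 : G = 0
  · refine ⟨0, fun g => ?_⟩
    rw [← hψ, hG', hG0, zero_dvd_iff, zero_dvd_iff]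
    exact Polynomial.map_eq_zero_iff (IsFractionRing.injective R K)
  · obtain ⟨b, hbm, hb⟩ := IsLocalization.integerNormalization_spec (nonZeroDivisors R) G
    set F0 := IsLocalization.integerNormalization (nonZeroDivisors R) G with hF0
    have hb0 : (algebraMap R K b) ≠ 0 := by
      intro h
      exact nonZeroDivisors.ne_zero hbm ((map_eq_zero_iff _ (IsFractionRing.injective R K)).1 h)
    have hb' : F0.map (algebraMap R K) = Polynomial.C (algebraMap R K b) * G := by
      rw [hb, Algebra.smul_def]
      rfl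
    have hF00 : F0 ≠ 0 := by
      intro h
      rw [h, Polynomial.map_zero] at hb'
      exact hG0 (by
        rcases mul_eq_zero.1 hb'.symm with h | h
        · exact absurd (Polynomial.C_eq_zero.1 h) hb0
        · exact h)
    refine ⟨F0.primPart, fun g => ?_⟩
    have hcont : (algebraMap R K F0.content) ≠ 0 := by
      intro h
      exact hF00 (Polynomial.content_eq_zero_iff.1
        ((map_eq_zero_iff _ (IsFractionRing.injective R K)).1 h))
    have h2 : Polynomial.C (algebraMap R K F0.content) * F0.primPart.map (algebraMap R K) =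
        Polynomial.C (algebraMap R K b) * G := by
      rw [← hb', ← Polynomial.map_C, ← Polynomial.map_mul, ← Polynomial.eq_C_content_mul_primPart]
    have hass : Associated (F0.primPart.map (algebraMap R K)) G := by
      have hu1 : IsUnit (Polynomial.C (algebraMap R K F0.content)) :=
        Polynomial.isUnit_C.2 (isUnit_iff_ne_zero.2 hcont)
      have hu2 : IsUnit (Polynomial.C (algebraMap R K b)) :=
        Polynomial.isUnit_C.2 (isUnit_iff_ne_zero.2 hb0)
      have h3 := associated_unit_mul_left (F0.primPart.map (algebraMap R K)) _ hu1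
      have h4 := associated_unit_mul_left G _ hu2
      rw [h2] at h3
      exact h3.symm.trans h4
    rw [← hψ, hG', ← hass.dvd_iff_dvd_left]
    exact (Polynomial.IsPrimitive.dvd_iff_fraction_map_dvd_fraction_map K
      (Polynomial.isPrimitive_primPart F0)).symm

/-- if all but one of the `y i` are independent then the relations form a principal ideal -/
theorem ker_mv {ι : Type} (y : ι → ℝ) (i0 : ι)
    (hy : AlgebraicIndependent ℚ (fun i : {i // i ≠ i0} => y i)) :
    ∃ F : MvPolynomial ι ℚ, ∀ g, MvPolynomial.aeval y g = 0 ↔ F ∣ g := by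
  classical
  let E : MvPolynomial ι ℚ ≃ₐ[ℚ] Polynomial (MvPolynomial {i // i ≠ i0} ℚ) :=
    (MvPolynomial.renameEquiv ℚ (Equiv.optionSubtypeNe i0).symm).trans
      (MvPolynomial.optionEquivLeft ℚ _)
  let φ : Polynomial (MvPolynomial {i // i ≠ i0} ℚ) →ₐ[ℚ] ℝ :=
    (MvPolynomial.aeval y).comp E.symm.toAlgHom
  have hC : ∀ r : MvPolynomial {i // i ≠ i0} ℚ, φ (Polynomial.C r) =
      MvPolynomial.aeval (fun i : {i // i ≠ i0} => y i) r := by
    intro r
    have h1 : φ.comp (Polynomial.CAlgHom (R := ℚ) (A := MvPolynomial {i // i ≠ i0} ℚ)) =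
        MvPolynomial.aeval (fun i : {i // i ≠ i0} => y i) := by
      refine MvPolynomial.algHom_ext fun i => ?_
      have h2 : E (MvPolynomial.X i.1) = Polynomial.C (MvPolynomial.X i) := by
        show MvPolynomial.optionEquivLeft ℚ _ (MvPolynomial.rename (Equiv.optionSubtypeNe i0).symm
          (MvPolynomial.X i.1)) = _
        rw [MvPolynomial.rename_X, Equiv.optionSubtypeNe_symm_of_ne i.2]
        exact MvPolynomial.optionEquivLeft_X_some ℚ _ _
      have h3 : E.symm (Polynomial.C (MvPolynomial.X i)) = MvPolynomial.X i.1 := by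
        rw [← h2, AlgEquiv.symm_apply_apply]
      show MvPolynomial.aeval y (E.symm (Polynomial.C (MvPolynomial.X i))) = _
      rw [h3, MvPolynomial.aeval_X, MvPolynomial.aeval_X]
    exact congrArg (fun f : MvPolynomial {i // i ≠ i0} ℚ →ₐ[ℚ] ℝ => f r) h1
  have hinj : Function.Injective ((φ : Polynomial (MvPolynomial {i // i ≠ i0} ℚ) →+* ℝ).comp
      Polynomial.C) := by
    intro a b hab
    have hab' : φ (Polynomial.C a) = φ (Polynomial.C b) := hab
    rw [hC, hC] at hab'
    exact hy hab'
  obtain ⟨F, hF⟩ := ker_poly (φ : Polynomial (MvPolynomial {i // i ≠ i0} ℚ) →+* ℝ) hinj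
  refine ⟨E.symm F, fun g => ?_⟩
  have h4 : φ (E g) = MvPolynomial.aeval y g := by
    show MvPolynomial.aeval y (E.symm (E g)) = _
    rw [AlgEquiv.symm_apply_apply]
  rw [← h4]
  refine (hF (E g)).trans ?_
  constructor
  · rintro ⟨k, hk⟩
    exact ⟨E.symm k, by rw [← map_mul, ← hk, AlgEquiv.symm_apply_apply]⟩
  · rintro ⟨k, hk⟩
    exact ⟨E k, by rw [hk, map_mul, AlgEquiv.apply_symm_apply]⟩

/-- all but one of the `y i` are independent -/
theorem all_but_one {ι : Type} (y : ι → ℝ)
    (h : ∀ s : Finset ι, ∃ u ⊆ s, s.card ≤ u.card + 1 ∧ AlgebraicIndependent ℚ (fun i : u => y i)) :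
    AlgebraicIndependent ℚ y ∨ ∃ i0 : ι, AlgebraicIndependent ℚ (fun i : {i // i ≠ i0} => y i) := by
  classical
  set M := AlgebraicIndependent.matroid ℚ ℝ with hM
  obtain ⟨B, hB⟩ := M.exists_isBasis (Set.range y) (by rw [hM]; exact Set.subset_univ _)
  have hBsub : Set.SurjOn y Set.univ B := by
    intro b hb
    obtain ⟨i, hi⟩ := hB.subset hb
    exact ⟨i, trivial, hi⟩
  obtain ⟨J, _, hbij⟩ := hBsub.exists_bijOn_subset
  have hBi : AlgebraicIndepOn ℚ id B := by
    rw [← AlgebraicIndependent.matroid_indep_iff]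
    exact hB.indep
  have hJ : AlgebraicIndependent ℚ (fun i : J => y i) := by
    have h5 := AlgebraicIndependent.comp hBi
      (fun i : J => (⟨y i, hbij.mapsTo i.2⟩ : B))
      (by
        intro i j hij
        exact Subtype.ext (hbij.injOn i.2 j.2 (congrArg Subtype.val hij)))
    exact h5
  by_cases hall : ∀ i, i ∈ J
  · left
    exact hJ.comp (fun i => (⟨i, hall i⟩ : J)) (fun i j hij => congrArg Subtype.val hij)
  · right
    push Not at hall
    obtain ⟨i0, hi0⟩ := hall
    refine ⟨i0, ?_⟩
    suffices hs : ∀ i, i ≠ i0 → i ∈ J from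
      hJ.comp (fun i : {i // i ≠ i0} => (⟨i.1, hs i.1 i.2⟩ : J))
        (fun i j hij => Subtype.ext (congrArg (fun z : J => z.1) hij))
    intro i1 hi1
    by_contra hi1J
    have hcl : ∀ i, y i ∈ M.closure B := fun i =>
      hB.subset_closure ⟨i, rfl⟩
    obtain ⟨I, hIB, hIfin, _, hIc⟩ := Matroid.exists_subset_finite_closure_of_subset_closure
      (M := M) (X := {y i0, y i1}) (Y := B) (by simp) (by
        rintro a (rfl | rfl)
        · exact hcl i0
        · exact hcl i1)
    obtain ⟨J0, hJ0, hbij0⟩ := (hbij.surjOn.mono le_rfl hIB).exists_bijOn_subset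
    have hJ0fin : J0.Finite := hbij0.finite_iff_finite.2 hIfin
    have hn0 : i0 ∉ hJ0fin.toFinset := fun h' => hi0 (hJ0 (hJ0fin.mem_toFinset.1 h'))
    have hn1 : i1 ∉ insert i0 hJ0fin.toFinset := by
      rw [Finset.mem_insert, not_or]
      exact ⟨hi1, fun h' => hi1J (hJ0 (hJ0fin.mem_toFinset.1 h'))⟩
    obtain ⟨u, hu, hcard, hind⟩ := h (insert i1 (insert i0 hJ0fin.toFinset))
    rw [Finset.card_insert_of_notMem hn1, Finset.card_insert_of_notMem hn0] at hcard
    have huinj : Set.InjOn y (u : Set ι) := by
      intro a ha b hb hab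
      have := hind.injective (a₁ := ⟨a, ha⟩) (a₂ := ⟨b, hb⟩) hab
      exact congrArg (fun z : u => z.1) this
    have huind : M.Indep (y '' (u : Set ι)) := by
      rw [AlgebraicIndependent.matroid_indep_iff]
      have h1 := hind.coe_range
      have h2 : Set.range (fun i : u => y i) = y '' (u : Set ι) := by
        rw [Set.image_eq_range]
        rfl
      rw [← h2]
      exact h1
    have hucl : y '' (u : Set ι) ⊆ M.closure I := by
      rintro _ ⟨i, hi, rfl⟩
      have h3 := hu hi
      rw [Finset.mem_insert, Finset.mem_insert] at h3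
      rcases h3 with rfl | rfl | h3
      · exact hIc (by simp)
      · exact hIc (by simp)
      · exact M.subset_closure I (by rw [hM]; exact Set.subset_univ _)
          (hbij0.mapsTo (hJ0fin.mem_toFinset.1 h3))
    have h4 : (u.card : ℕ∞) ≤ hJ0fin.toFinset.card := by
      calc (u.card : ℕ∞) = (y '' (u : Set ι)).encard := by
            rw [huinj.encard_image, Set.encard_coe_eq_coe_finsetCard]
        _ ≤ M.eRk (M.closure I) := huind.encard_le_eRk_of_subset hucl
        _ = M.eRk I := M.eRk_closure_eq _
        _ ≤ I.encard := M.eRk_le_encard I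
        _ = hJ0fin.toFinset.card := by
            rw [← hbij0.image_eq, hbij0.injOn.encard_image, ← Set.encard_coe_eq_coe_finsetCard,
              hJ0fin.coe_toFinset]
    have h5 : u.card ≤ hJ0fin.toFinset.card := by exact_mod_cast h4
    omega
theorem ker_principal {H : Type} [CommRing H] [Algebra ℚ H] (per : H →ₐ[ℚ] ℝ) {ι : Type}
    (x : ι → H) (hx : AlgebraicIndependent ℚ x) (htop : Algebra.adjoin ℚ (Set.range x) = ⊤)
    (h : ∀ s : Finset ι, ∃ u ⊆ s, s.card ≤ u.card + 1 ∧
      AlgebraicIndependent ℚ (fun i : u => per (x i))) :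
    ∃ F : H, ∀ g, per g = 0 ↔ F ∣ g := by
  classical
  have hcomp : ∀ g, per (MvPolynomial.aeval x g) =
      MvPolynomial.aeval (fun i => per (x i)) g := fun g =>
    (MvPolynomial.comp_aeval_apply x per g)
  have hsurj : ∀ k : H, ∃ g, MvPolynomial.aeval (R := ℚ) x g = k := by
    intro k
    have h1 : k ∈ Algebra.adjoin ℚ (Set.range x) := by rw [htop]; trivial
    rw [Algebra.adjoin_range_eq_range_aeval] at h1
    exact h1
  have hmv : ∃ F : MvPolynomial ι ℚ, ∀ g,
      MvPolynomial.aeval (fun i => per (x i)) g = 0 ↔ F ∣ g := by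
    rcases all_but_one (fun i => per (x i)) h with h1 | ⟨i0, h1⟩
    · refine ⟨0, fun g => ?_⟩
      rw [zero_dvd_iff]
      exact map_eq_zero_iff _ h1
    · exact ker_mv _ i0 h1
  obtain ⟨F, hF⟩ := hmv
  refine ⟨MvPolynomial.aeval x F, fun k => ?_⟩
  obtain ⟨g, rfl⟩ := hsurj k
  rw [hcomp, hF]
  constructor
  · rintro ⟨m, rfl⟩
    exact ⟨MvPolynomial.aeval x m, by rw [map_mul]⟩
  · rintro ⟨m, hm⟩
    obtain ⟨m', rfl⟩ := hsurj m
    exact ⟨m', hx (by rw [hm, map_mul])⟩

section concrete

variable {H : Type} [CommRing H] [Algebra ℚ H] (A : ℕ → Submodule ℚ H)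
  [GradedAlgebra A] (per : H →ₐ[ℚ] ℝ)

theorem aeval_mem (L : Idx → H) (hL : ∀ p, L p ∈ A p.1.sum) {n : ℕ} {f : MvPolynomial Idx ℚ}
    (hf : MvPolynomial.IsWeightedHomogeneous (fun p : Idx => p.1.sum) f n) :
    MvPolynomial.aeval L f ∈ A n := by
  classical
  rw [MvPolynomial.aeval_def, MvPolynomial.eval₂_eq]
  refine sum_mem fun d hd => ?_
  have hdn : Finsupp.weight (fun p : Idx => p.1.sum) d = n := hf (MvPolynomial.mem_support_iff.1 hd)
  rw [← Algebra.smul_def]
  refine Submodule.smul_mem _ _ ?_
  have h1 := SetLike.prod_mem_graded A (fun i : Idx => d i • i.1.sum) (fun i => L i ^ d i)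
    (F := d.support) (fun i _ => SetLike.pow_mem_graded (d i) (hL i))
  rw [Finsupp.weight_apply, Finsupp.sum] at hdn
  rw [hdn] at h1
  exact h1

theorem concrete (hmap : ∀ n, (A n).map per.toLinearMap = weightSpace n)
    (hinjA : ∀ n, ∀ h ∈ A n, per h = 0 → h = 0) (F : H) (hF : ∀ h, per h = 0 ↔ F ∣ h) :
    ∃ F' : MvPolynomial Idx ℚ, relations = Ideal.span (insert F' homRelations) := by
  classical
  have hlift : ∀ p : Idx, ∃ h ∈ A p.1.sum, per h = mzv p.1 := by
    intro p
    have h1 : mzv p.1 ∈ weightSpace p.1.sum := Submodule.subset_span ⟨p.1, ⟨p.2, rfl⟩, rfl⟩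
    rw [← hmap] at h1
    obtain ⟨h, hh, hp⟩ := h1
    exact ⟨h, hh, hp⟩
  choose L hL hLp using hlift
  have hrel : ∀ f, f ∈ relations ↔ MvPolynomial.aeval (R := ℚ) (fun p : Idx => mzv p.1) f = 0 :=
    fun f => Iff.rfl
  set ψ := MvPolynomial.aeval (R := ℚ) (fun p : Idx => mzv p.1) with hψ
  set lam := MvPolynomial.aeval (R := ℚ) L with hlam
  have hcomp : ∀ f, per (lam f) = ψ f := by
    intro f
    have h1 : per.comp lam = ψ := by
      refine MvPolynomial.algHom_ext fun p => ?_
      rw [AlgHom.comp_apply, hlam, hψ, MvPolynomial.aeval_X, MvPolynomial.aeval_X, hLp]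
    rw [← h1]
    rfl
  have hsurjn : ∀ n, ∀ h ∈ A n, h ∈ lam.range := by
    intro n h hh
    have h1 : per h ∈ weightSpace n := by
      rw [← hmap n]
      exact ⟨h, hh, rfl⟩
    have h2 : weightSpace n ≤ (A n ⊓ Subalgebra.toSubmodule lam.range).map per.toLinearMap := by
      rw [weightSpace, Submodule.span_le]
      rintro _ ⟨p, ⟨hp, hpn⟩, rfl⟩
      refine ⟨L ⟨p, hp⟩, ⟨?_, ?_⟩, hLp ⟨p, hp⟩⟩
      · have := hL ⟨p, hp⟩
        rw [show (⟨p, hp⟩ : Idx).1.sum = n from hpn] at this
        exact this
      · exact ⟨MvPolynomial.X ⟨p, hp⟩, MvPolynomial.aeval_X _ _⟩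
    obtain ⟨h', ⟨hh', hr⟩, hper⟩ := h2 h1
    have h3 : h - h' = 0 := hinjA n _ (sub_mem hh hh') (by
      rw [map_sub]
      exact sub_eq_zero.2 hper.symm)
    rw [sub_eq_zero.1 h3]
    exact hr
  have hsurj : ∀ h, ∃ f, lam f = h := by
    intro h
    have : h ∈ lam.range := by
      rw [← DirectSum.sum_support_decompose A h]
      exact sum_mem fun i _ => hsurjn i _ (DirectSum.decompose A h i).2
    exact this
  obtain ⟨F', hF'⟩ := hsurj F
  refine ⟨F', le_antisymm ?_ ?_⟩
  · intro g hg
    have hg0 : ψ g = 0 := hg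
    obtain ⟨k, hk⟩ := (hF (lam g)).1 (by rw [hcomp]; exact hg0)
    obtain ⟨k', hk'⟩ := hsurj k
    have h4 : lam (g - F' * k') = 0 := by
      rw [map_sub, map_mul, hF', hk', hk, sub_self]
    have h5 : ∀ e, lam e = 0 → e ∈ Ideal.span (insert F' homRelations) := by
      intro e he
      have hfin := MvPolynomial.weightedHomogeneousComponent_finsupp (w := fun p : Idx => p.1.sum) e
      have hsum := MvPolynomial.sum_weightedHomogeneousComponent (fun p : Idx => p.1.sum) e
      rw [finsum_eq_sum _ hfin] at hsum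
      have hcm : ∀ m, lam (MvPolynomial.weightedHomogeneousComponent
          (fun p : Idx => p.1.sum) m e) ∈ A m := fun m =>
        aeval_mem A L hL (MvPolynomial.weightedHomogeneousComponent_isWeightedHomogeneous m e)
      have hz : ∀ m ∈ hfin.toFinset, lam (MvPolynomial.weightedHomogeneousComponent
          (fun p : Idx => p.1.sum) m e) = 0 := by
        intro m hm
        have h6 : GradedAlgebra.proj A m (lam e) = 0 := by rw [he, map_zero]
        rw [← hsum, map_sum, map_sum, Finset.sum_eq_single m] at h6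
        · rw [GradedAlgebra.proj_apply, DirectSum.decompose_of_mem_same A (hcm m)] at h6
          exact h6
        · intro m' _ hne
          rw [GradedAlgebra.proj_apply, DirectSum.decompose_of_mem_ne A (hcm m') hne]
        · intro h7
          exact absurd hm h7
      rw [← hsum]
      refine sum_mem fun m hm => Ideal.subset_span (Set.mem_insert_of_mem _ ⟨?_, m,
        MvPolynomial.weightedHomogeneousComponent_isWeightedHomogeneous m e⟩)
      rw [hrel, ← hcomp, hz m hm, map_zero]
    have h6 : g = F' * k' + (g - F' * k') := by ring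
    rw [h6]
    exact add_mem (Ideal.mul_mem_right _ _ (Ideal.subset_span (Set.mem_insert _ _))) (h5 _ h4)
  · rw [Ideal.span_le]
    rintro f (hf | hf)
    · rw [hf]
      show ψ F' = 0
      rw [← hcomp, hF']
      exact (hF F).2 dvd_rfl
    · exact hf.1

end concrete
/-! ### the dimensions of the sums -/

section q

variable {H : Type} [CommRing H] [IsDomain H] [Algebra ℚ H] (A : ℕ → Submodule ℚ H)
  [GradedAlgebra A]

/-- the homomorphism `h ↦ ∑ h_n X^n` -/
noncomputable def q : H →ₐ[ℚ] Polynomial H :=
  (DirectSum.toAlgebra ℚ (fun i => A i)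
    (fun i => ((Polynomial.monomial (R := H) i).restrictScalars ℚ) ∘ₗ (A i).subtype)
    (by
      show Polynomial.monomial 0 (1 : H) = 1
      exact Polynomial.monomial_zero_one)
    (by
      intro i j a b
      show Polynomial.monomial (i + j) ((a : H) * (b : H)) =
        Polynomial.monomial i (a : H) * Polynomial.monomial j (b : H)
      exact (Polynomial.monomial_mul_monomial i j (a : H) (b : H)).symm)).comp
    (DirectSum.decomposeAlgEquiv A).toAlgHom

theorem q_of_mem {n : ℕ} {h : H} (hh : h ∈ A n) : q A h = Polynomial.monomial n h := by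
  have h1 : (DirectSum.decomposeAlgEquiv A).toAlgHom h =
      DirectSum.of (fun i => A i) n ⟨h, hh⟩ := DirectSum.decompose_of_mem A hh
  rw [q, AlgHom.comp_apply, h1]
  exact DirectSum.toAddMonoid_of (fun i => (((Polynomial.monomial (R := H) i).restrictScalars ℚ) ∘ₗ
    (A i).subtype).toAddMonoidHom) n ⟨h, hh⟩

theorem coeff_q (h : H) (n : ℕ) :
    (q A h).coeff n = ((DirectSum.decompose A h n : A n) : H) := by
  classical
  conv_lhs => rw [← DirectSum.sum_support_decompose A h, map_sum, Polynomial.finsetSum_coeff]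
  have h1 : ∀ i ∈ DFinsupp.support (DirectSum.decompose A h),
      (q A ((DirectSum.decompose A h i : A i) : H)).coeff n =
        if i = n then ((DirectSum.decompose A h i : A i) : H) else 0 := by
    intro i _
    rw [q_of_mem A (DirectSum.decompose A h i).2, Polynomial.coeff_monomial]
  rw [Finset.sum_congr rfl h1, Finset.sum_ite_eq']
  split_ifs with h2
  · rfl
  · rw [DFinsupp.notMem_support_iff] at h2
    rw [h2]
    rfl

theorem mem_upTo_iff (h : H) (n : ℕ) : h ∈ Pool.Agent.K6.H54.ZG.upTo A n ↔ (q A h).natDegree ≤ n := by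
  classical
  rw [Polynomial.natDegree_le_iff_coeff_eq_zero]
  constructor
  · intro hh i hi
    rw [coeff_q]
    have h1 : Pool.Agent.K6.H54.ZG.upTo A n ≤ LinearMap.ker (GradedAlgebra.proj A i) := by
      rw [Pool.Agent.K6.H54.ZG.upTo]
      refine iSup₂_le fun j hj a ha => ?_
      rw [LinearMap.mem_ker, GradedAlgebra.proj_apply]
      refine DirectSum.decompose_of_mem_ne A ha ?_
      have := Finset.mem_range.1 hj
      omega
    exact h1 hh
  · intro hh
    rw [← DirectSum.sum_support_decompose A h]
    refine sum_mem fun i hi => ?_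
    have hin : i ≤ n := by
      by_contra hcon
      have h1 := hh i (by omega)
      rw [coeff_q] at h1
      exact (DFinsupp.mem_support_iff.1 hi) (Subtype.ext h1)
    rw [Pool.Agent.K6.H54.ZG.upTo]
    exact (le_iSup₂_of_le i (Finset.mem_range.2 (by omega)) le_rfl :
      A i ≤ ⨆ j ∈ Finset.range (n + 1), A j) (DirectSum.decompose A h i).2

theorem q_inj : Function.Injective (q A) := by
  classical
  rw [injective_iff_map_eq_zero]
  intro h hh
  rw [← DirectSum.sum_support_decompose A h]
  refine Finset.sum_eq_zero fun i _ => ?_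
  rw [← coeff_q, hh, Polynomial.coeff_zero]

theorem mul_mem_upTo {F h : H} (hF : F ≠ 0) (hh : h ≠ 0) (n : ℕ) :
    F * h ∈ Pool.Agent.K6.H54.ZG.upTo A n ↔ (q A F).natDegree + (q A h).natDegree ≤ n := by
  rw [mem_upTo_iff, map_mul, Polynomial.natDegree_mul]
  · exact fun h1 => hF (q_inj A (by rw [h1, map_zero]))
  · exact fun h1 => hh (q_inj A (by rw [h1, map_zero]))

end q

open Pool.Agent.K6.H54.ZG in
theorem dims {H : Type} [CommRing H] [IsDomain H] [Algebra ℚ H] (A : ℕ → Submodule ℚ H)
    [GradedAlgebra A] (per : H →ₐ[ℚ] ℝ) (hfin : ∀ n, FiniteDimensional ℚ (A n))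
    (hdim : ∀ n, finrank ℚ (A n) = zagier n) (hmap : ∀ n, (A n).map per.toLinearMap = weightSpace n)
    (hinjA : ∀ n, ∀ h ∈ A n, per h = 0 → h = 0) (F : H) (hF : ∀ h, per h = 0 ↔ F ∣ h) :
    (∀ n, finrank ℚ (sumSpace n) = ∑ i ∈ Finset.range (n + 1), zagier i) ∨
    ∃ k, 0 < k ∧ (∀ n < k, finrank ℚ (sumSpace n) = ∑ i ∈ Finset.range (n + 1), zagier i) ∧
      ∀ n, finrank ℚ (sumSpace (n + k)) + ∑ i ∈ Finset.range (n + 1), zagier i =
        ∑ i ∈ Finset.range (n + k + 1), zagier i := by
  classical
  have hS : ∀ n, sumSpace n = (upTo A n).map per.toLinearMap := by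
    intro n
    rw [map_upTo, sumSpace, upTo]
    exact iSup_congr fun i => iSup_congr fun _ => (hmap i).symm
  have hD : ∀ n, finrank ℚ (upTo A n) = ∑ i ∈ Finset.range (n + 1), zagier i := by
    intro n
    rw [finrank_upTo hfin]
    exact Finset.sum_congr rfl fun i _ => hdim i
  have hfd : ∀ n, FiniteDimensional ℚ (upTo A n) := fun n => fd_upTo (A := A) hfin n
  have hrn : ∀ n, finrank ℚ (sumSpace n) +
      finrank ℚ (LinearMap.ker (per.toLinearMap.domRestrict (upTo A n))) =
        ∑ i ∈ Finset.range (n + 1), zagier i := by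
    intro n
    have := hfd n
    rw [hS, ← hD, ← LinearMap.range_domRestrict]
    exact LinearMap.finrank_range_add_finrank_ker _
  have hker : ∀ n (B : Submodule ℚ H), (∀ h, h ∈ B ↔ h ∈ upTo A n ∧ F ∣ h) →
      finrank ℚ (sumSpace n) + finrank ℚ B = ∑ i ∈ Finset.range (n + 1), zagier i := by
    intro n B hB
    have h1 : B = (LinearMap.ker (per.toLinearMap.domRestrict (upTo A n))).map
        (upTo A n).subtype := by
      ext h
      rw [hB, Submodule.mem_map]
      constructor
      · rintro ⟨h2, h3⟩
        exact ⟨⟨h, h2⟩, (hF h).2 h3, rfl⟩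
      · rintro ⟨⟨h', h2⟩, h3, rfl⟩
        exact ⟨h2, (hF h').1 h3⟩
    have h2 : finrank ℚ B =
        finrank ℚ (LinearMap.ker (per.toLinearMap.domRestrict (upTo A n))) := by
      rw [h1]
      exact Submodule.finrank_map_subtype_eq _ _
    rw [h2]
    exact hrn n
  by_cases hF0 : F = 0
  · left
    intro n
    have h1 := hker n ⊥ (by
      intro h
      rw [Submodule.mem_bot, hF0, zero_dvd_iff]
      exact ⟨fun h2 => ⟨h2 ▸ zero_mem _, h2⟩, fun h2 => h2.2⟩)
    rw [finrank_bot] at h1
    exact h1
  · right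
    refine ⟨(q A F).natDegree, ?_, fun n hn => ?_, fun n => ?_⟩
    · by_contra hcon
      have h1 : F ∈ upTo A 0 := (mem_upTo_iff A F 0).2 (by omega)
      have h2 : F ∈ A 0 := by
        rw [upTo_zero] at h1
        exact h1
      exact hF0 (hinjA 0 F h2 ((hF F).2 dvd_rfl))
    · have h1 := hker n ⊥ (by
        intro h
        rw [Submodule.mem_bot]
        constructor
        · intro h2
          exact ⟨h2 ▸ zero_mem _, h2 ▸ dvd_zero _⟩
        · rintro ⟨h2, m, rfl⟩
          by_contra h3
          have hm : m ≠ 0 := fun h4 => h3 (by rw [h4, mul_zero])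
          rw [mul_mem_upTo A hF0 hm] at h2
          omega)
      rw [finrank_bot] at h1
      exact h1
    · have h1 := hker (n + (q A F).natDegree) ((upTo A n).map (LinearMap.mulLeft ℚ F)) (by
        intro h
        rw [Submodule.mem_map]
        constructor
        · rintro ⟨m, hm, rfl⟩
          refine ⟨?_, Dvd.intro m rfl⟩
          by_cases hm0 : m = 0
          · rw [hm0, map_zero]
            exact zero_mem _
          · show F * m ∈ _
            rw [mul_mem_upTo A hF0 hm0]
            have := (mem_upTo_iff A m n).1 hm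
            omega
        · rintro ⟨h2, m, rfl⟩
          refine ⟨m, ?_, rfl⟩
          by_cases hm0 : m = 0
          · rw [hm0]
            exact zero_mem _
          · rw [mul_mem_upTo A hF0 hm0] at h2
            rw [mem_upTo_iff]
            omega)
      have hFinj : Function.Injective (LinearMap.mulLeft ℚ F) := by
        intro a b hab
        exact mul_left_cancel₀ hF0 hab
      rw [← (Submodule.equivMapOfInjective (LinearMap.mulLeft ℚ F) hFinj (upTo A n)).finrank_eq,
        hD] at h1
      exact h1

/-! ### the main theorem -/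

/-- the field generated by the multiple zeta values -/
noncomputable abbrev KK : IntermediateField ℚ ℝ := IntermediateField.adjoin ℚ (Set.range mzv)

theorem countable_KK : Countable KK := by
  have h1 := IntermediateField.cardinalMk_adjoin_le ℚ (Set.range mzv)
  rw [← Cardinal.mk_le_aleph0_iff]
  refine h1.trans ?_
  refine max_le (max_le ?_ ?_) le_rfl
  · exact Cardinal.mk_le_aleph0
  · exact Cardinal.mk_le_aleph0_iff.2 (Set.countable_range mzv).to_subtype

theorem weightSpace_le (n : ℕ) : ∀ a ∈ weightSpace n, a ∈ KK := by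
  have h1 : weightSpace n ≤ KK.toSubalgebra.toSubmodule := by
    rw [weightSpace, Submodule.span_le]
    rintro _ ⟨p, _, rfl⟩
    exact IntermediateField.subset_adjoin ℚ _ ⟨p, rfl⟩
  exact fun a ha => h1 ha

section main

variable {H : Type} [CommRing H] [IsDomain H] [Algebra ℚ H] (A : ℕ → Submodule ℚ H)
  [GradedAlgebra A] (per : H →ₐ[ℚ] ℝ)

theorem per_mem (hA : ∀ n, (A n).map per.toLinearMap = weightSpace n) (h : H) : per h ∈ KK := by
  classical
  rw [← DirectSum.sum_support_decompose A h, map_sum]
  refine sum_mem fun i _ => weightSpace_le i _ ?_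
  rw [← hA i]
  exact ⟨_, (DirectSum.decompose A h i).2, rfl⟩

theorem twisted_eq (hA : ∀ n, (A n).map per.toLinearMap = weightSpace n) (t : ℝ) (n : ℕ) :
    twisted t n = (Pool.Agent.K6.H54.ZG.upTo A n).map (pt A per t).toLinearMap := by
  rw [Pool.Agent.K6.H54.ZG.map_upTo, twisted, Pool.Agent.K6.H54.ZG.upTo]
  refine iSup_congr fun i => iSup_congr fun _ => ?_
  rw [← hA i]
  ext a
  constructor
  · rintro ⟨_, ⟨h, hh, rfl⟩, rfl⟩
    exact ⟨h, hh, pt_of_mem A per t hh⟩
  · rintro ⟨h, hh, rfl⟩
    exact ⟨per h, ⟨h, hh, rfl⟩, (pt_of_mem A per t hh).symm⟩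

theorem full_of_conj (hfin : ∀ n, FiniteDimensional ℚ (A n))
    (hdim : ∀ n, finrank ℚ (A n) = zagier n)
    (hA : ∀ n, (A n).map per.toLinearMap = weightSpace n) (t : ℝ)
    (hinj : Function.Injective (pt A per t)) (n : ℕ) :
    finrank ℚ (twisted t n) = ∑ i ∈ Finset.range (n + 1), zagier i := by
  rw [twisted_eq A per hA, ← (Submodule.equivMapOfInjective (pt A per t).toLinearMap hinj
    (Pool.Agent.K6.H54.ZG.upTo A n)).finrank_eq, Pool.Agent.K6.H54.ZG.finrank_upTo hfin]
  exact Finset.sum_congr rfl fun i _ => hdim i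

theorem conj_of_full (hfin : ∀ n, FiniteDimensional ℚ (A n))
    (hdim : ∀ n, finrank ℚ (A n) = zagier n)
    (hA : ∀ n, (A n).map per.toLinearMap = weightSpace n) (t : ℝ)
    (ht : ∀ n, finrank ℚ (twisted t n) = ∑ i ∈ Finset.range (n + 1), zagier i) (n : ℕ) :
    finrank ℚ (weightSpace n) = zagier n := by
  have hfd : ∀ n, FiniteDimensional ℚ (weightSpace n) := by
    intro n
    have := hfin n
    rw [← hA n]
    infer_instance
  have hle : finrank ℚ (weightSpace n) ≤ zagier n := by
    have := hfin n
    rw [← hA n, ← hdim n]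
    exact Submodule.finrank_map_le _ _
  refine le_antisymm hle ?_
  have := hfd n
  have hmap : finrank ℚ ((weightSpace n).map (LinearMap.mulLeft ℚ (t ^ n))) ≤
      finrank ℚ (weightSpace n) := Submodule.finrank_map_le _ _
  cases n with
  | zero =>
    have h1 := ht 0
    have h2 : twisted t 0 = (weightSpace 0).map (LinearMap.mulLeft ℚ (t ^ 0)) := by
      simp [twisted]
    rw [h2, zero_add, Finset.sum_range_one] at h1
    omega
  | succ n =>
    have h1 := ht (n + 1)
    have h2 : twisted t (n + 1) =
        twisted t n ⊔ (weightSpace (n + 1)).map (LinearMap.mulLeft ℚ (t ^ (n + 1))) :=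
      Pool.Agent.K6.H54.ZG.upTo_succ
        (fun i => (weightSpace i).map (LinearMap.mulLeft ℚ (t ^ i))) n
    have h3 : FiniteDimensional ℚ (twisted t n) := by
      rw [twisted_eq A per hA]
      have := Pool.Agent.K6.H54.ZG.fd_upTo (A := A) hfin n
      infer_instance
    have h4 := Submodule.finrank_add_le_finrank_add_finrank (twisted t n)
      ((weightSpace (n + 1)).map (LinearMap.mulLeft ℚ (t ^ (n + 1))))
    rw [← h2, h1, ht n, Finset.sum_range_succ] at h4
    omega

end main

/-- **Main theorem** -/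
theorem result (hM : MotivicLift) :
    ((∀ n, finrank ℚ (weightSpace n) = zagier n) ↔
      ∃ t : ℝ, ∀ n, finrank ℚ (twisted t n) = ∑ i ∈ Finset.range (n + 1), zagier i) ∧
    ((∀ n, finrank ℚ (weightSpace n) = zagier n) ↔
      {t : ℝ | ¬ ∀ n, finrank ℚ (twisted t n) =
        ∑ i ∈ Finset.range (n + 1), zagier i}.Countable) ∧
    ((∀ n, finrank ℚ (weightSpace n) = zagier n) →
      (∃ k₀ : ℕ, AlgebraicIndependent ℚ (fun k : {k // k ≠ k₀} => oddZeta k)) ∧
      (∃ F : MvPolynomial Idx ℚ, relations = Ideal.span (insert F homRelations)) ∧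
      (∀ N, ∃ T : Finset ℝ, (∀ a ∈ T, ∃ n ≤ N, a ∈ weightSpace n) ∧
        AlgebraicIndependent ℚ (fun a : T => (a : ℝ)) ∧
        ∑ n ∈ Finset.range (N + 1), gens n ≤ T.card + 1) ∧
      ((∀ n, finrank ℚ (sumSpace n) = ∑ i ∈ Finset.range (n + 1), zagier i) ∨
        ∃ k, 0 < k ∧ (∀ n < k, finrank ℚ (sumSpace n) = ∑ i ∈ Finset.range (n + 1), zagier i) ∧
          ∀ n, finrank ℚ (sumSpace (n + k)) + ∑ i ∈ Finset.range (n + 1), zagier i =
            ∑ i ∈ Finset.range (n + k + 1), zagier i)) ∧
    ∀ (N : ℕ) (T : Finset ℝ), (∀ a ∈ T, ∃ n ≤ N, a ∈ weightSpace n) →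
      AlgebraicIndependent ℚ (fun a : T => (a : ℝ)) →
      T.card ≤ ∑ n ∈ Finset.range (N + 1), gens n ∧
      ((∃ m ≤ N, finrank ℚ (weightSpace m) ≠ zagier m) →
        T.card + 1 ≤ ∑ n ∈ Finset.range (N + 1), gens n) := by
  classical
  obtain ⟨H, _, _, _, A, _, per, ι, w, x, c, hA, hx, hxtop, hxw, hcount, hcinj, hc⟩ := hM
  have hfin : ∀ n, FiniteDimensional ℚ (A n) := fun n => (hA n).1
  have hdim : ∀ n, finrank ℚ (A n) = zagier n := fun n => (hA n).2.1
  have hmap : ∀ n, (A n).map per.toLinearMap = weightSpace n := fun n => (hA n).2.2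
  have hK : ∀ h, per h ∈ KK := per_mem A per hmap
  have hcK := countable_KK
  have hcount0 : {t : ℝ | IsAlgebraic KK t}.Countable := Algebraic.countable KK ℝ
  have hgood : (∀ n, finrank ℚ (weightSpace n) = zagier n) → ∀ t : ℝ, Transcendental KK t →
      Function.Injective (pt A per t) := by
    intro hQ t ht
    refine pt_inj A per t KK hK ht fun n h hh h0 => ?_
    have := hfin n
    exact Pool.Agent.K6.H54.ZG.no_rel per (A n) (by rw [hmap n, hdim n]; exact hQ n) hh h0
  have hex : ∃ t : ℝ, Transcendental KK t := by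
    by_contra hcon
    push Not at hcon
    have h1 : {t : ℝ | IsAlgebraic KK t} = Set.univ :=
      Set.eq_univ_of_forall fun t => by
        have := hcon t
        rw [Transcendental, not_not] at this
        exact this
    rw [h1] at hcount0
    exact Set.not_countable_univ hcount0
  have h13 : (∀ n, finrank ℚ (weightSpace n) = zagier n) →
      {t : ℝ | ¬ ∀ n, finrank ℚ (twisted t n) =
        ∑ i ∈ Finset.range (n + 1), zagier i}.Countable := by
    intro hQ
    refine hcount0.mono fun t ht => ?_
    by_contra hcon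
    exact ht fun n => full_of_conj A per hfin hdim hmap t (hgood hQ t hcon) n
  have h32 : {t : ℝ | ¬ ∀ n, finrank ℚ (twisted t n) =
        ∑ i ∈ Finset.range (n + 1), zagier i}.Countable →
      ∃ t : ℝ, ∀ n, finrank ℚ (twisted t n) = ∑ i ∈ Finset.range (n + 1), zagier i := by
    intro h
    by_contra hcon
    push Not at hcon
    have h1 : {t : ℝ | ¬ ∀ n, finrank ℚ (twisted t n) =
        ∑ i ∈ Finset.range (n + 1), zagier i} = Set.univ :=
      Set.eq_univ_of_forall fun t => by
        obtain ⟨n, hn⟩ := hcon t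
        exact fun h2 => hn (h2 n)
    rw [h1] at h
    exact Set.not_countable_univ h
  have h21 : (∃ t : ℝ, ∀ n, finrank ℚ (twisted t n) =
      ∑ i ∈ Finset.range (n + 1), zagier i) → ∀ n, finrank ℚ (weightSpace n) = zagier n := by
    rintro ⟨t, ht⟩ n
    exact conj_of_full A per hfin hdim hmap t ht n
  have hS' : ∀ N, ∃ S : Finset ι, (∀ i, w i ≤ N ↔ i ∈ S) ∧
      S.card = ∑ n ∈ Finset.range (N + 1), gens n := by
    intro N
    refine ⟨(Finset.range (N + 1)).biUnion fun n => (hcount n).1.toFinset, fun i => ?_, ?_⟩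
    · rw [Finset.mem_biUnion]
      constructor
      · intro hi
        exact ⟨w i, Finset.mem_range.2 (by omega), (hcount (w i)).1.mem_toFinset.2 rfl⟩
      · rintro ⟨n, hn, hin⟩
        have h1 : w i = n := (hcount n).1.mem_toFinset.1 hin
        have h2 := Finset.mem_range.1 hn
        omega
    · rw [Finset.card_biUnion]
      · refine Finset.sum_congr rfl fun n _ => ?_
        have h1 := (hcount n).2
        rw [Set.ncard_eq_toFinset_card _ (hcount n).1] at h1
        exact h1
      · intro n _ n' _ hne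
        show Disjoint _ _
        rw [Finset.disjoint_left]
        intro i hi hi'
        rw [Set.Finite.mem_toFinset] at hi hi'
        exact hne (hi.symm.trans hi')
  refine ⟨⟨fun h => h32 (h13 h), h21⟩, ⟨h13, fun h => h21 (h32 h)⟩, fun hQ => ?_,
    fun N T hT hTi => ?_⟩
  swap
  · obtain ⟨S, hS, hScard⟩ := hS' N
    have hT' : ∀ a ∈ T, ∃ n ≤ N, ∃ h ∈ A n, per h = a := by
      intro a ha
      obtain ⟨n, hn, han⟩ := hT a ha
      rw [← hmap n] at han
      obtain ⟨h, hh, hha⟩ := han
      exact ⟨n, hn, h, hh, hha⟩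
    obtain ⟨h1, h2⟩ := card_le A per w x hxw hxtop N S (fun i hi => (hS i).1 hi) T hT' hTi
    rw [hScard] at h1 h2
    refine ⟨h1, ?_⟩
    rintro ⟨m, hm, hne⟩
    rw [← hmap m, ← hdim m] at hne
    obtain ⟨a, ha, hane, ha0⟩ := exists_rel A per (hfin m) hne
    exact h2 m hm a ha hane ha0
  obtain ⟨t, ht⟩ := hex
  have hinj := hgood hQ t ht
  have hinjA : ∀ n, ∀ h ∈ A n, per h = 0 → h = 0 := by
    intro n h hh h0
    have := hfin n
    exact Pool.Agent.K6.H54.ZG.no_rel per (A n) (by rw [hmap n, hdim n]; exact hQ n) hh h0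
  obtain ⟨F, hF⟩ := ker_principal per x hx hxtop
    (fun s => many_indep A per t x w hxw hx hinj s)
  refine ⟨?_, concrete A per hmap hinjA F hF, ?_, dims A per hfin hdim hmap hinjA F hF⟩
  · have h1 : AlgebraicIndependent ℚ oddZeta ∨
        ∃ k₀ : ℕ, AlgebraicIndependent ℚ (fun k : {k // k ≠ k₀} => oddZeta k) := by
      refine all_but_one oddZeta fun s => ?_
      obtain ⟨u, hu, hcard, hind⟩ := many_indep A per t (fun k => x (c k)) (fun k => w (c k))
        (fun k => hxw (c k)) (hx.comp c hcinj) hinj s
      refine ⟨u, hu, hcard, ?_⟩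
      have h2 : (fun i : u => oddZeta i) = (fun i : u => per (x (c i))) := by
        funext i
        exact (hc i).symm
      rw [h2]
      exact hind
    rcases h1 with h1 | h1
    · exact ⟨0, h1.comp (fun k : {k : ℕ // k ≠ 0} => k.1) Subtype.val_injective⟩
    · exact h1
  · intro N
    obtain ⟨S, hS, hScard⟩ := hS' N
    obtain ⟨u, hu, hcard, hind⟩ := many_indep A per t x w hxw hx hinj S
    have huinj : Function.Injective (fun i : u => per (x i)) := hind.injective
    refine ⟨u.image fun i => per (x i), ?_, ?_, ?_⟩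
    · intro a ha
      obtain ⟨i, hi, rfl⟩ := Finset.mem_image.1 ha
      refine ⟨w i, (hS i).2 (hu hi), ?_⟩
      rw [← hmap (w i)]
      exact ⟨x i, hxw i, rfl⟩
    · have h1 := hind.coe_range
      have h2 := h1.comp (fun a : (u.image fun i => per (x i) : Finset ℝ) =>
        (⟨a.1, by
          obtain ⟨i, hi, hia⟩ := Finset.mem_image.1 a.2
          exact ⟨⟨i, hi⟩, hia⟩⟩ : Set.range (fun i : u => per (x i))))
        (fun a b hab => Subtype.ext (congrArg (fun z : Set.range (fun i : u => per (x i)) => z.1)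
          hab))
      exact h2
    · rw [← hScard, Finset.card_image_of_injOn]
      · exact hcard
      · intro i hi j hj hij
        have h3 : (⟨i, hi⟩ : u) = ⟨j, hj⟩ := huinj hij
        exact congrArg (fun z : u => z.1) h3

end Pool.Agent.Results.MP_56e040_nt.UpToOneRelation
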